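import Pool.Agent.Lib.Pbbea99G.E4.Data

/-!
# MP_bbea99_co: closure of the templates
-/

namespace MPbbea99G.E4

open MPbbea99S MPbbea99T MPbbea99G Finset

theorem c_2130_2131 : allTr (chkV P V lk) tr_2130_2131 = true := by decide +kernel

theorem ck_2117 : (chkV P V lk) 0x10000000500010004000100013fff400040014000 = true := by decide +kernel

theorem c_1599_1665 : allTr (chkV P V lk) tr_1599_1665 = true := by decide +kernel

theorem c_267_532 : allTr (chkV P V lk) tr_267_532 = true := by decide +kernel

theorem c_533_799 : allTr (chkV P V lk) tr_533_799 = true := by decide +kernel

theorem c_0_266 : allTr (chkV P V lk) tr_0_266 = true := by decide +kernel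

theorem c_1200_1332 : allTr (chkV P V lk) tr_1200_1332 = true := by decide +kernel

theorem c_1466_1532 : allTr (chkV P V lk) tr_1466_1532 = true := by decide +kernel

theorem c_2066_2098 : allTr (chkV P V lk) tr_2066_2098 = true := by decide +kernel

theorem c_800_932 : allTr (chkV P V lk) tr_800_932 = true := by decide +kernel

theorem c_1866_1932 : allTr (chkV P V lk) tr_1866_1932 = true := by decide +kernel

theorem c_2120_2123 : allTr (chkV P V lk) tr_2120_2123 = true := by decide +kernel

theorem c_1367_1399 : allTr (chkV P V lk) tr_1367_1399 = true := by decide +kernel

theorem c_1733_1865 : allTr (chkV P V lk) tr_1733_1865 = true := by decide +kernel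

theorem c_1000_1065 : allTr (chkV P V lk) tr_1000_1065 = true := by decide +kernel

theorem c_1066_1132 : allTr (chkV P V lk) tr_1066_1132 = true := by decide +kernel

theorem c_1133_1199 : allTr (chkV P V lk) tr_1133_1199 = true := by decide +kernel

theorem c_1933_1998 : allTr (chkV P V lk) tr_1933_1998 = true := by decide +kernel

theorem c_1400_1465 : allTr (chkV P V lk) tr_1400_1465 = true := by decide +kernel

theorem c_933_999 : allTr (chkV P V lk) tr_933_999 = true := by decide +kernel

theorem c_2128_2129 : allTr (chkV P V lk) tr_2128_2129 = true := by decide +kernel

theorem c_2099_2115 : allTr (chkV P V lk) tr_2099_2115 = true := by decide +kernel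

theorem c_1333_1366 : allTr (chkV P V lk) tr_1333_1366 = true := by decide +kernel

theorem c_1533_1598 : allTr (chkV P V lk) tr_1533_1598 = true := by decide +kernel

theorem c_2116_2117 : allTr (chkV P V lk) tr_2116_2117 = true := by decide +kernel

theorem c_1999_2065 : allTr (chkV P V lk) tr_1999_2065 = true := by decide +kernel

theorem ck_2119 : (chkV P V lk) 0x1000000050001000600020002400040003fff4001 = true := by decide +kernel

theorem ck_2129 : (chkV P V lk) 0x100010000000500020002000200023fff400040004001 = true := by decide +kernel

theorem c_1666_1732 : allTr (chkV P V lk) tr_1666_1732 = true := by decide +kernel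

theorem c_2124_2127 : allTr (chkV P V lk) tr_2124_2127 = true := by decide +kernel

theorem ck_1065 : (chkV P V lk) 0x70001000a000300013fff400140004000 = true := by decide +kernel

theorem ck_1366 : (chkV P V lk) 0xa00010000000300013fff400140004000 = true := by decide +kernel

theorem ck_2127 : (chkV P V lk) 0x100000001000b00010002000200004000400040004000 = true := by decide +kernel

theorem c_2118_2119 : allTr (chkV P V lk) tr_2118_2119 = true := by decide +kernel

theorem ck_2123 : (chkV P V lk) 0x100000000000a00020004000400013fff400040004001 = true := by decide +kernel

theorem ck_1332 : (chkV P V lk) 0xa00000000000500023fff40023fff4000 = true := by decide +kernel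

theorem ck_1998 : (chkV P V lk) 0x10000000300000000000a000a3fff3fff3fff4003 = true := by decide +kernel

theorem ck_1732 : (chkV P V lk) 0x1000000000001000b0008000840003fff40014000 = true := by decide +kernel

theorem ck_1532 : (chkV P V lk) 0x10000000000000001000500053fff400240003fff = true := by decide +kernel

theorem ck_2065 : (chkV P V lk) 0x10000000400000002000500053fff400240003fff = true := by decide +kernel

theorem ck_2115 : (chkV P V lk) 0x1000000050000000a0002000240013fff3fff4001 = true := by decide +kernel

theorem ck_999 : (chkV P V lk) 0x60002000a0000000340023fff3ffe4001 = true := by decide +kernel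

theorem ck_932 : (chkV P V lk) 0x6000000040009000540013fff40004000 = true := by decide +kernel

theorem ck_799 : (chkV P V lk) 0x400000008000800073ffb400340033fff = true := by decide +kernel

theorem ck_1132 : (chkV P V lk) 0x80000000b0002000940003ffd40004003 = true := by decide +kernel

theorem ck_1199 : (chkV P V lk) 0x80002000900000002400440003ffd3fff = true := by decide +kernel

theorem ck_1399 : (chkV P V lk) 0xa0001000b000800003ffc400140024001 = true := by decide +kernel

theorem ck_1465 : (chkV P V lk) 0xb000100040008000a40013ffe40004001 = true := by decide +kernel

theorem ck_1665 : (chkV P V lk) 0x10000000000010003000b000b40013ffe3fff4002 = true := by decide +kernel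

theorem ck_1932 : (chkV P V lk) 0x10000000200000003000400044000400140003fff = true := by decide +kernel

theorem ck_2098 : (chkV P V lk) 0x1000000040001000b000400043ffe3fff40014002 = true := by decide +kernel

theorem ck_1865 : (chkV P V lk) 0x100000001000000020002000240013ffe3ffe4003 = true := by decide +kernel

theorem ck_1598 : (chkV P V lk) 0x100000000000000090002000240043ffd3ffe4001 = true := by decide +kernel

theorem ck_266 : (chkV P V lk) 0x10003000400014000400140013ffe = true := by decide +kernel

theorem ck_532 : (chkV P V lk) 0x20004000000083ffc400140034000 = true := by decide +kernel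

end MPbbea99G.E4
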