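import Pool.Agent.Lib.Pbbea99G.E4.Data

/-!
# MP_bbea99_co: windows over the templates
-/

namespace MPbbea99G.E4

open MPbbea99S MPbbea99T MPbbea99G Finset

theorem o_2644_2646 : allTr oF to_2644_2646 = true := by decide +kernel

theorem o_696_741 : allTr oF to_696_741 = true := by decide +kernel

theorem o_1113_1118 : allTr oF to_1113_1118 = true := by decide +kernel

theorem o_1438_1443 : allTr oF to_1438_1443 = true := by decide +kernel

theorem o_2749_2751 : allTr oF to_2749_2751 = true := by decide +kernel

theorem o_2786_2788 : allTr oF to_2786_2788 = true := by decide +kernel

theorem o_2948_2950 : allTr oF to_2948_2950 = true := by decide +kernel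

theorem o_2839_2841 : allTr oF to_2839_2841 = true := by decide +kernel

theorem ok_2730 : oF 0x1000000050001000500020002400040003fff400113121211 = true := by decide +kernel

theorem o_2708_2709 : allTr oF to_2708_2709 = true := by decide +kernel

theorem ok_2906 : oF 0x100010000000500020002000200023fff40004000400109090908 = true := by decide +kernel

theorem ok_2731 : oF 0x1000000050001000500020002400040003fff400115141413 = true := by decide +kernel

theorem o_2743_2744 : allTr oF to_2743_2744 = true := by decide +kernel

theorem ok_2887 : oF 0x100010000000500020001000100013fff4000400040010d0d0d0c = true := by decide +kernel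

theorem o_1125_1136 : allTr oF to_1125_1136 = true := by decide +kernel

theorem ok_1574 : oF 0xa000000010006000240013fff400040001311100f = true := by decide +kernel

theorem ok_2826 : oF 0x100000000000a00020006000600023fff40004000400100002a29 = true := by decide +kernel

theorem ok_2481 : oF 0x10000000300020003000800083ffe40014000400119171714 = true := by decide +kernel

theorem ok_2579 : oF 0x10000000400010002000500053ffe40013fff400206040402 = true := by decide +kernel

theorem ok_1506 : oF 0x900020001000800043ffe40004000400218171614 = true := by decide +kernel

theorem ok_2805 : oF 0x100000000000a00020004000400013fff40004000400110100f0e = true := by decide +kernel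

theorem ok_2542 : oF 0x10000000400000006000500053fff40013ffe400227242422 = true := by decide +kernel

theorem o_2795_2796 : allTr oF to_2795_2796 = true := by decide +kernel

theorem o_325_370 : allTr oF to_325_370 = true := by decide +kernel

theorem o_1717_1722 : allTr oF to_1717_1722 = true := by decide +kernel

theorem ok_2516 : oF 0x10000000400000001000500053fff400240003fff0e0b0b09 = true := by decide +kernel

theorem o_1450_1460 : allTr oF to_1450_1460 = true := by decide +kernel

theorem ok_2456 : oF 0x10000000300010006000a000a3ffe40003fff400316131310 = true := by decide +kernel

theorem o_2436_2441 : allTr oF to_2436_2441 = true := by decide +kernel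

theorem o_1436_1437 : allTr oF to_1436_1437 = true := by decide +kernel

theorem ok_1528 : oF 0x900020005000700033ffe40013fff40020302012a = true := by decide +kernel

theorem o_2943_2944 : allTr oF to_2943_2944 = true := by decide +kernel

theorem ok_2780 : oF 0x10001000600000002000000004001400040003fff16151515 = true := by decide +kernel

theorem ok_2927 : oF 0x10001000100060001000000000000400040004000400003030303 = true := by decide +kernel

theorem ok_1840 : oF 0x1000b00000004000100004000400040013fff16151414 = true := by decide +kernel

theorem o_1604_1606 : allTr oF to_1604_1606 = true := by decide +kernel

theorem ok_1046 : oF 0x600000001000900053ffe4000400040021f191813 = true := by decide +kernel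

theorem ok_1229 : oF 0x700020005000600044000400140003fff1e1b1a16 = true := by decide +kernel

theorem ok_2423 : oF 0x10000000300000002000300033ffd4002400040011a161613 = true := by decide +kernel

theorem o_1323_1325 : allTr oF to_1323_1325 = true := by decide +kernel

theorem ok_1287 : oF 0x8000100010002000040023ffe3ffe400213100f0c = true := by decide +kernel

theorem ok_2476 : oF 0x10000000300020002000a000a3ffd400040004003201e1e1b = true := by decide +kernel

theorem ok_2156 : oF 0x10000000000020003000400044000400140003fff16141411 = true := by decide +kernel

theorem ok_232 : oF 0x10000000b000b3ffc40024002400014161214 = true := by decide +kernel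

theorem ok_2447 : oF 0x1000000030001000300000000400140003ffd400209060603 = true := by decide +kernel

theorem ok_1658 : oF 0xa00010004000a000440023ffe40023ffe0c060429 = true := by decide +kernel

theorem ok_1078 : oF 0x6000100020006000240003ffe40033fff1c171611 = true := by decide +kernel

theorem ok_1066 : oF 0x60000000b000b00093ffc400140004003251f1e19 = true := by decide +kernel

theorem ok_1009 : oF 0x500010008000800073ffc4000400040041b15140e = true := by decide +kernel

theorem ok_1241 : oF 0x800000001000100083ffd4003400040001612110e = true := by decide +kernel

theorem ok_2006 : oF 0x100000000000100010006000640043fff3ffd40000e181822 = true := by decide +kernel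

theorem ok_2435 : oF 0x1000000030000000a0006000640033fff3ffd40012420201d = true := by decide +kernel

end MPbbea99G.E4
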