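import Pool.Agent.Lib.Pbbea99G.E4.Data

/-!
# MP_bbea99_co: windows over the templates
-/

namespace MPbbea99G.E4

open MPbbea99S MPbbea99T MPbbea99G Finset

theorem o_2597_2602 : allTr oF to_2597_2602 = true := by decide +kernel

theorem o_2389_2400 : allTr oF to_2389_2400 = true := by decide +kernel

theorem o_1050_1055 : allTr oF to_1050_1055 = true := by decide +kernel

theorem o_1508_1510 : allTr oF to_1508_1510 = true := by decide +kernel

theorem o_934_939 : allTr oF to_934_939 = true := by decide +kernel

theorem o_2865_2867 : allTr oF to_2865_2867 = true := by decide +kernel

theorem o_1835_1837 : allTr oF to_1835_1837 = true := by decide +kernel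

theorem o_1624_1626 : allTr oF to_1624_1626 = true := by decide +kernel

theorem ok_2614 : oF 0x10000000400020000000600063fff3fff400140011211110f = true := by decide +kernel

theorem ok_2881 : oF 0x100010000000500020001000100013fff40004000400101010100 = true := by decide +kernel

theorem o_2830_2831 : allTr oF to_2830_2831 = true := by decide +kernel

theorem o_2911_2912 : allTr oF to_2911_2912 = true := by decide +kernel

theorem ok_2904 : oF 0x100010000000500020002000200023fff40004000400103030302 = true := by decide +kernel

theorem ok_2890 : oF 0x100010000000500020001000100013fff40004000400113131312 = true := by decide +kernel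

theorem ok_1446 : oF 0x900010003000800043ffe4000400140011311100e = true := by decide +kernel

theorem ok_1690 : oF 0xa00010009000500023fff40013fff400129282726 = true := by decide +kernel

theorem ok_2895 : oF 0x100010000000500020001000100013fff4000400040011e1e1e1d = true := by decide +kernel

theorem ok_1466 : oF 0x900010006000900053fff40003fff40021c1a1917 = true := by decide +kernel

theorem o_2665_2666 : allTr oF to_2665_2666 = true := by decide +kernel

theorem o_2361_2365 : allTr oF to_2361_2365 = true := by decide +kernel

theorem o_1792_1793 : allTr oF to_1792_1793 = true := by decide +kernel

theorem ok_2654 : oF 0x1000000040002000a000600063fff3fff400140011e1d1d1b = true := by decide +kernel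

theorem ok_2596 : oF 0x10000000400010008000300033ffe40023fff400128262624 = true := by decide +kernel

theorem ok_2821 : oF 0x100000000000a00020005000500023fff40004000400119191817 = true := by decide +kernel

theorem o_835_846 : allTr oF to_835_846 = true := by decide +kernel

theorem o_1595_1597 : allTr oF to_1595_1597 = true := by decide +kernel

theorem ok_2695 : oF 0x1000000050000000a0002000240013fff3fff4001012a2a29 = true := by decide +kernel

theorem ok_2492 : oF 0x10000000300020006000900093fff3fff40004002100e0e0b = true := by decide +kernel

theorem ok_811 : oF 0x100000003000b000840003ffe400040022419180e = true := by decide +kernel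

theorem o_1067_1072 : allTr oF to_1067_1072 = true := by decide +kernel

theorem o_1613_1618 : allTr oF to_1613_1618 = true := by decide +kernel

theorem ok_2747 : oF 0x10001000600000001000000004001400040003fff002a2a2a = true := by decide +kernel

theorem ok_2759 : oF 0x10001000600000001000000004001400040003fff19181818 = true := by decide +kernel

theorem ok_2939 : oF 0x1000100010006000100000000000040004000400040000f0f0f0f = true := by decide +kernel

theorem ok_1852 : oF 0x1000b0000000500020000400140003fff400013121111 = true := by decide +kernel

theorem ok_1121 : oF 0x600020008000700033ffe40013fff40021814130e = true := by decide +kernel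

theorem ok_2336 : oF 0x1000000020000000500090009400140013ffe400019141410 = true := by decide +kernel

theorem o_928_933 : allTr oF to_928_933 = true := by decide +kernel

theorem ok_1383 : oF 0x9000000000009000540003fff3fff4002110e0d0b = true := by decide +kernel

theorem ok_1728 : oF 0xa0002000a000200063fff40023fff40002823211b = true := by decide +kernel

theorem ok_1380 : oF 0x900000000000700033ffe40033ffe400113100f0d = true := by decide +kernel

theorem o_2430_2435 : allTr oF to_2430_2435 = true := by decide +kernel

theorem ok_1884 : oF 0x10000000000000001000800083fff3ffe400040032318180e = true := by decide +kernel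

theorem ok_997 : oF 0x500010001000200053ffe400040014001251a180d = true := by decide +kernel

theorem ok_2185 : oF 0x1000000000002000600020002400140013ffc400227202018 = true := by decide +kernel

theorem ok_1032 : oF 0x500020006000000063fff40033fff3fff1c171610 = true := by decide +kernel

theorem ok_1794 : oF 0xb00020002000000023fff3fff40033fff1c181611 = true := by decide +kernel

theorem ok_1646 : oF 0xa0001000300040002400040013ffd4002251a170c = true := by decide +kernel

theorem ok_881 : oF 0x30001000a000b00013ffc40023ffe4004101f1a29 = true := by decide +kernel

theorem ok_649 : oF 0x200040006000040003ffd400340001616100f = true := by decide +kernel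

theorem ok_1945 : oF 0x10000000000000007000b000b3ffb400140014003261f1f19 = true := by decide +kernel

theorem ok_2301 : oF 0x100000001000200030002000240003ffd400240011a161611 = true := by decide +kernel

end MPbbea99G.E4
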