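import Pool.Agent.Lib.Pbbea99G.E4.Data

/-!
# MP_bbea99_co: windows over the templates
-/

namespace MPbbea99G.E4

open MPbbea99S MPbbea99T MPbbea99G Finset

theorem o_222_232 : allTr oF to_222_232 = true := by decide +kernel

theorem o_47_92 : allTr oF to_47_92 = true := by decide +kernel

theorem o_1242_1247 : allTr oF to_1242_1247 = true := by decide +kernel

theorem o_1700_1705 : allTr oF to_1700_1705 = true := by decide +kernel

theorem o_2755_2757 : allTr oF to_2755_2757 = true := by decide +kernel

theorem o_2836_2838 : allTr oF to_2836_2838 = true := by decide +kernel

theorem o_2954_2956 : allTr oF to_2954_2956 = true := by decide +kernel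

theorem o_2482_2484 : allTr oF to_2482_2484 = true := by decide +kernel

theorem ok_2715 : oF 0x10000000500010004000100013fff4000400140000c0b0b0a = true := by decide +kernel

theorem ok_1638 : oF 0xa000100000006000240003fff4000400118171615 = true := by decide +kernel

theorem o_2828_2829 : allTr oF to_2828_2829 = true := by decide +kernel

theorem ok_2716 : oF 0x10000000500010004000100013fff400040014000100f0f0e = true := by decide +kernel

theorem ok_2707 : oF 0x10000000500010003000100013fff4000400140001a191918 = true := by decide +kernel

theorem o_1404_1406 : allTr oF to_1404_1406 = true := by decide +kernel

theorem ok_2704 : oF 0x10000000500010003000100013fff40004001400006050504 = true := by decide +kernel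

theorem o_2714_2715 : allTr oF to_2714_2715 = true := by decide +kernel

theorem o_1679_1680 : allTr oF to_1679_1680 = true := by decide +kernel

theorem o_2262_2267 : allTr oF to_2262_2267 = true := by decide +kernel

theorem ok_1495 : oF 0x900020000000300053ffe4001400140000d0c0b09 = true := by decide +kernel

theorem o_2618_2620 : allTr oF to_2618_2620 = true := by decide +kernel

theorem o_1285_1287 : allTr oF to_1285_1287 = true := by decide +kernel

theorem ok_2884 : oF 0x100010000000500020001000100013fff40004000400106060605 = true := by decide +kernel

theorem ok_2521 : oF 0x10000000400000002000500053fff400240003fff211e1e1c = true := by decide +kernel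

theorem ok_2634 : oF 0x10000000400020007000300033fff40013fff400127262624 = true := by decide +kernel

theorem ok_2691 : oF 0x1000000050000000900020002400040013ffe40010e0c0c0b = true := by decide +kernel

theorem ok_1793 : oF 0xb00020001000a00023fff3fff3fff40032824221d = true := by decide +kernel

theorem ok_992 : oF 0x50000000b0008000440003ffe400240002821201a = true := by decide +kernel

theorem o_865_870 : allTr oF to_865_870 = true := by decide +kernel

theorem o_1531_1533 : allTr oF to_1531_1533 = true := by decide +kernel

theorem ok_2631 : oF 0x10000000400020007000300033fff40013fff400107060604 = true := by decide +kernel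

theorem ok_2641 : oF 0x10000000400020008000400043fff3fff400040021d1c1c1a = true := by decide +kernel

theorem ok_2576 : oF 0x1000000040001000200030003400040013fff4000100e0e0c = true := by decide +kernel

theorem ok_2777 : oF 0x10001000600000002000000004001400040003fff11101010 = true := by decide +kernel

theorem ok_2936 : oF 0x1000100010006000100000000000040004000400040000c0c0c0c = true := by decide +kernel

theorem ok_1837 : oF 0x1000b00000004000100004000400040013fff0c0b0a0a = true := by decide +kernel

theorem o_2088_2099 : allTr oF to_2088_2099 = true := by decide +kernel

theorem ok_1437 : oF 0x9000100020006000440013fff3fff400117151412 = true := by decide +kernel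

theorem o_2505_2516 : allTr oF to_2505_2516 = true := by decide +kernel

theorem o_2381_2383 : allTr oF to_2381_2383 = true := by decide +kernel

theorem o_2415_2417 : allTr oF to_2415_2417 = true := by decide +kernel

theorem o_1271_1275 : allTr oF to_1271_1275 = true := by decide +kernel

theorem ok_916 : oF 0x400000006000200003fff400240013ffe20181710 = true := by decide +kernel

theorem ok_1357 : oF 0x800020008000b00083ffd40023ffe400306040300 = true := by decide +kernel

theorem ok_1890 : oF 0x10000000000000002000000003fff3ffe400240012618180b = true := by decide +kernel

theorem ok_1472 : oF 0x900010007000900053ffd40004000400300292826 = true := by decide +kernel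

theorem ok_2267 : oF 0x100000001000000090003000340023fff3ffe40012a24241f = true := by decide +kernel

theorem ok_1391 : oF 0x900000003000400083fff40013ffe40020023211a = true := by decide +kernel

theorem ok_1519 : oF 0x9000200040002000240043ffd3ffe40010c18111c = true := by decide +kernel

theorem ok_510 : oF 0x20000000700043ffc400140043fff0f141014 = true := by decide +kernel

theorem ok_1820 : oF 0xb0002000900020005400040023ffc400212160d10 = true := by decide +kernel

theorem ok_2261 : oF 0x10000000100000002000600064001400040023ffd1610100b = true := by decide +kernel

end MPbbea99G.E4
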