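import Pool.Agent.Lib.Pbbea99G.E4.Data

/-!
# MP_bbea99_co: windows over the templates
-/

namespace MPbbea99G.E4

open MPbbea99S MPbbea99T MPbbea99G Finset

theorem o_2065_2087 : allTr oF to_2065_2087 = true := by decide +kernel

theorem o_511_533 : allTr oF to_511_533 = true := by decide +kernel

theorem o_1619_1623 : allTr oF to_1619_1623 = true := by decide +kernel

theorem o_2517_2519 : allTr oF to_2517_2519 = true := by decide +kernel

theorem o_1248_1252 : allTr oF to_1248_1252 = true := by decide +kernel

theorem o_2859_2861 : allTr oF to_2859_2861 = true := by decide +kernel

theorem o_1827_1829 : allTr oF to_1827_1829 = true := by decide +kernel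

theorem o_1160_1165 : allTr oF to_1160_1165 = true := by decide +kernel

theorem ok_2703 : oF 0x10000000500010003000100013fff40004001400005040403 = true := by decide +kernel

theorem ok_2910 : oF 0x100010000000500020002000200023fff40004000400111111110 = true := by decide +kernel

theorem o_2615_2616 : allTr oF to_2615_2616 = true := by decide +kernel

theorem ok_2793 : oF 0x100000000000a00020003000300013fff40004000400106060504 = true := by decide +kernel

theorem o_1447_1448 : allTr oF to_1447_1448 = true := by decide +kernel

theorem ok_1677 : oF 0xa00010008000400013fff3fff4001400103020100 = true := by decide +kernel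

theorem ok_2916 : oF 0x100010000000500020002000200023fff4000400040011c1c1c1b = true := by decide +kernel

theorem ok_2678 : oF 0x10000000500000007000100013fff400140013fff100e0e0d = true := by decide +kernel

theorem o_1662_1663 : allTr oF to_1662_1663 = true := by decide +kernel

theorem ok_2913 : oF 0x100010000000500020002000200023fff40004000400116161615 = true := by decide +kernel

theorem ok_1403 : oF 0x900000006000300054000400140003fff17141311 = true := by decide +kernel

theorem ok_2575 : oF 0x1000000040001000200030003400040013fff400007050503 = true := by decide +kernel

theorem o_1563_1564 : allTr oF to_1563_1564 = true := by decide +kernel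

theorem o_2650_2651 : allTr oF to_2650_2651 = true := by decide +kernel

theorem o_1688_1689 : allTr oF to_1688_1689 = true := by decide +kernel

theorem ok_1651 : oF 0xa00010003000500023fff40013fff400116151413 = true := by decide +kernel

theorem ok_2686 : oF 0x10000000500000008000100013fff3fff4002400017151514 = true := by decide +kernel

theorem o_2659_2660 : allTr oF to_2659_2660 = true := by decide +kernel

theorem ok_2818 : oF 0x100000000000a00020005000500023fff4000400040010d0d0c0b = true := by decide +kernel

theorem o_952_963 : allTr oF to_952_963 = true := by decide +kernel

theorem o_1706_1716 : allTr oF to_1706_1716 = true := by decide +kernel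

theorem ok_2632 : oF 0x10000000400020007000300033fff40013fff4001100f0f0d = true := by decide +kernel

theorem o_1384_1386 : allTr oF to_1384_1386 = true := by decide +kernel

theorem o_2874_2875 : allTr oF to_2874_2875 = true := by decide +kernel

theorem ok_2774 : oF 0x10001000600000002000000004001400040003fff0a090909 = true := by decide +kernel

theorem ok_2930 : oF 0x10001000100060001000000000000400040004000400006060606 = true := by decide +kernel

theorem ok_1834 : oF 0x1000b00000004000100004000400040013fff02010000 = true := by decide +kernel

theorem o_418_463 : allTr oF to_418_463 = true := by decide +kernel

theorem ok_2620 : oF 0x10000000400020003000500053ffe40014000400114131311 = true := by decide +kernel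

theorem o_1166_1171 : allTr oF to_1166_1171 = true := by decide +kernel

theorem ok_1533 : oF 0x900020007000300053ffe4001400140000a090806 = true := by decide +kernel

theorem o_2238_2249 : allTr oF to_2238_2249 = true := by decide +kernel

theorem o_2036_2040 : allTr oF to_2036_2040 = true := by decide +kernel

theorem o_2543_2545 : allTr oF to_2543_2545 = true := by decide +kernel

theorem ok_1252 : oF 0x8000000040000000640023fff3ffd40021a161512 = true := by decide +kernel

theorem ok_2145 : oF 0x10000000000020002000800083fff3ffe40043fff0f141418 = true := by decide +kernel

theorem ok_2099 : oF 0x1000000000001000a00030003400240003ffe400011141417 = true := by decide +kernel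

theorem ok_2310 : oF 0x10000000100020005000200024001400140003ffe19151510 = true := by decide +kernel

theorem ok_1165 : oF 0x700010003000100003ffd400140024000120e0d09 = true := by decide +kernel

theorem ok_1205 : oF 0x700020001000800044002400040003ffe13181014 = true := by decide +kernel

theorem ok_209 : oF 0x10000000700033ffd40023ffd40041615100f = true := by decide +kernel

theorem ok_1655 : oF 0xa000100030008000b3ffb4001400340010b050328 = true := by decide +kernel

theorem ok_2151 : oF 0x10000000000020002000a000a3fff3ffe3ffe4005231e1e18 = true := by decide +kernel

end MPbbea99G.E4
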