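import Pool.Agent.Lib.Pbbea99G.E4.Data

/-!
# MP_bbea99_co: windows over the templates
-/

namespace MPbbea99G.E4

open MPbbea99S MPbbea99T MPbbea99G Finset

theorem o_1335_1345 : allTr oF to_1335_1345 = true := by decide +kernel

theorem o_2540_2542 : allTr oF to_2540_2542 = true := by decide +kernel

theorem o_1102_1107 : allTr oF to_1102_1107 = true := by decide +kernel

theorem o_2442_2447 : allTr oF to_2442_2447 = true := by decide +kernel

theorem o_2763_2765 : allTr oF to_2763_2765 = true := by decide +kernel

theorem o_2845_2847 : allTr oF to_2845_2847 = true := by decide +kernel

theorem o_2960_2962 : allTr oF to_2960_2962 = true := by decide +kernel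

theorem o_2111_2122 : allTr oF to_2111_2122 = true := by decide +kernel

theorem ok_2712 : oF 0x10000000500010004000100013fff40004001400002010100 = true := by decide +kernel

theorem ok_1634 : oF 0xa00010000000300013fff4001400040001b1a1918 = true := by decide +kernel

theorem o_1694_1695 : allTr oF to_1694_1695 = true := by decide +kernel

theorem ok_1696 : oF 0xa0001000a0006000240003fff4000400113121110 = true := by decide +kernel

theorem ok_2721 : oF 0x10000000500010004000100013fff4000400140002120201f = true := by decide +kernel

theorem o_2720_2721 : allTr oF to_2720_2721 = true := by decide +kernel

theorem ok_2896 : oF 0x100010000000500020001000100013fff4000400040012020201f = true := by decide +kernel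

theorem o_2825_2826 : allTr oF to_2825_2826 = true := by decide +kernel

theorem ok_2568 : oF 0x10000000400010000000500053ffe400240004000201e1e1c = true := by decide +kernel

theorem ok_2564 : oF 0x100000004000100000004000440003ffe4000400216141412 = true := by decide +kernel

theorem ok_2713 : oF 0x10000000500010004000100013fff40004001400007060605 = true := by decide +kernel

theorem ok_1503 : oF 0x900020001000000063fff40004001400024232220 = true := by decide +kernel

theorem ok_2455 : oF 0x10000000300010006000300034000400040013fff221f1f1c = true := by decide +kernel

theorem o_1297_1298 : allTr oF to_1297_1298 = true := by decide +kernel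

theorem o_2302_2307 : allTr oF to_2302_2307 = true := by decide +kernel

theorem ok_2617 : oF 0x10000000400020003000500053ffe4001400040010201012a = true := by decide +kernel

theorem o_812_823 : allTr oF to_812_823 = true := by decide +kernel

theorem o_1502_1503 : allTr oF to_1502_1503 = true := by decide +kernel

theorem ok_2814 : oF 0x100000000000a00020005000500023fff4000400040010101002a = true := by decide +kernel

theorem o_1685_1686 : allTr oF to_1685_1686 = true := by decide +kernel

theorem ok_2527 : oF 0x10000000400000003000400043ffe3fff4002400119161614 = true := by decide +kernel

theorem ok_2629 : oF 0x10000000400020006000400043fff3fff4000400228272725 = true := by decide +kernel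

theorem o_1073_1078 : allTr oF to_1073_1078 = true := by decide +kernel

theorem ok_2757 : oF 0x10001000600000001000000004001400040003fff13121212 = true := by decide +kernel

theorem ok_2788 : oF 0x10001000600000002000000004001400040003fff23222222 = true := by decide +kernel

theorem ok_2947 : oF 0x10001000100060001000000000000400040004000400017171717 = true := by decide +kernel

theorem ok_1843 : oF 0x1000b00000004000100004000400040013fff21201f1f = true := by decide +kernel

theorem o_1140_1142 : allTr oF to_1140_1142 = true := by decide +kernel

theorem o_1079_1089 : allTr oF to_1079_1089 = true := by decide +kernel

theorem o_2418_2423 : allTr oF to_2418_2423 = true := by decide +kernel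

theorem ok_2417 : oF 0x10000000300000001000800083fff400240003fff2622221f = true := by decide +kernel

theorem o_1630_1632 : allTr oF to_1630_1632 = true := by decide +kernel

theorem o_1891_1901 : allTr oF to_1891_1901 = true := by decide +kernel

theorem ok_2295 : oF 0x1000000010001000a0004000440003ffe400040021914140f = true := by decide +kernel

theorem ok_1641 : oF 0xa0001000100020006400040023fff3fff1e181610 = true := by decide +kernel

theorem o_2282_2284 : allTr oF to_2282_2284 = true := by decide +kernel

theorem ok_2487 : oF 0x10000000300020005000300033ffd40014002400018161613 = true := by decide +kernel

theorem o_1016_1020 : allTr oF to_1016_1020 = true := by decide +kernel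

theorem ok_463 : oF 0x1000a00020002400240003ffc400215160f10 = true := by decide +kernel

theorem ok_2504 : oF 0x10000000300020009000700073ffe40013ffe4003012a2a27 = true := by decide +kernel

theorem ok_939 : oF 0x40001000900000000400140003ffd400212181117 = true := by decide +kernel

theorem ok_1118 : oF 0x60002000700070005400140033ffc4000091c1729 = true := by decide +kernel

theorem ok_1959 : oF 0x10000000000000009000400043ffc3ffd400440030919192a = true := by decide +kernel

theorem ok_2342 : oF 0x100000002000000060002000240013ffd400040021510100c = true := by decide +kernel

end MPbbea99G.E4
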