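import Pool.Agent.Lib.Pbbea99G.E4.Data

/-!
# MP_bbea99_co: windows over the templates
-/

namespace MPbbea99G.E4

open MPbbea99S MPbbea99T MPbbea99G Finset

theorem o_1288_1293 : allTr oF to_1288_1293 = true := by decide +kernel

theorem o_1467_1472 : allTr oF to_1467_1472 = true := by decide +kernel

theorem o_604_649 : allTr oF to_604_649 = true := by decide +kernel

theorem o_964_974 : allTr oF to_964_974 = true := by decide +kernel

theorem o_2783_2785 : allTr oF to_2783_2785 = true := by decide +kernel

theorem o_2940_2942 : allTr oF to_2940_2942 = true := by decide +kernel

theorem o_1864_1866 : allTr oF to_1864_1866 = true := by decide +kernel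

theorem o_1636_1638 : allTr oF to_1636_1638 = true := by decide +kernel

theorem o_1943_1945 : allTr oF to_1943_1945 = true := by decide +kernel

theorem ok_2733 : oF 0x1000000050001000500020002400040003fff40011e1d1d1c = true := by decide +kernel

theorem o_2917_2918 : allTr oF to_2917_2918 = true := by decide +kernel

theorem ok_2921 : oF 0x100010000000500020002000200023fff40004000400123232322 = true := by decide +kernel

theorem ok_1089 : oF 0x600010008000900053fff40003fff40021e191813 = true := by decide +kernel

theorem o_1410_1414 : allTr oF to_1410_1414 = true := by decide +kernel

theorem ok_2724 : oF 0x1000000050001000500020002400040003fff4001002a2a29 = true := by decide +kernel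

theorem o_1143_1148 : allTr oF to_1143_1148 = true := by decide +kernel

theorem o_2804_2805 : allTr oF to_2804_2805 = true := by decide +kernel

theorem o_1259_1264 : allTr oF to_1259_1264 = true := by decide +kernel

theorem ok_2637 : oF 0x10000000400020008000400043fff3fff4000400203020200 = true := by decide +kernel

theorem o_2670_2671 : allTr oF to_2670_2671 = true := by decide +kernel

theorem o_1543_1548 : allTr oF to_1543_1548 = true := by decide +kernel

theorem ok_1448 : oF 0x900010003000800043ffe4000400140012422211f = true := by decide +kernel

theorem ok_2668 : oF 0x1000000050000000300020002400040013ffe40011f1d1d1c = true := by decide +kernel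

theorem o_2580_2582 : allTr oF to_2580_2582 = true := by decide +kernel

theorem ok_1582 : oF 0xa00000002000300014000400140003fff27252423 = true := by decide +kernel

theorem o_2682_2683 : allTr oF to_2682_2683 = true := by decide +kernel

theorem ok_1597 : oF 0xa00000005000300013ffe400240004000110f0e0d = true := by decide +kernel

theorem ok_2287 : oF 0x1000000010001000700050005400040003ffe40021d181813 = true := by decide +kernel

theorem ok_2817 : oF 0x100000000000a00020005000500023fff4000400040010b0b0a09 = true := by decide +kernel

theorem o_1155_1159 : allTr oF to_1155_1159 = true := by decide +kernel

theorem o_1815_1817 : allTr oF to_1815_1817 = true := by decide +kernel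

theorem o_2288_2290 : allTr oF to_2288_2290 = true := by decide +kernel

theorem ok_2858 : oF 0x100000001000b0001000200020000400040004000400000002a2a = true := by decide +kernel

theorem ok_2944 : oF 0x10001000100060001000000000000400040004000400014141414 = true := by decide +kernel

theorem ok_2841 : oF 0x100000001000b0001000100010000400040004000400008080707 = true := by decide +kernel

theorem ok_1571 : oF 0xa00000001000400013ffe3fff4002400112100f0e = true := by decide +kernel

theorem o_1775_1785 : allTr oF to_1775_1785 = true := by decide +kernel

theorem ok_2646 : oF 0x10000000400020009000500053ffe4001400040011a191917 = true := by decide +kernel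

theorem ok_1107 : oF 0x6000200020002000940023fff3ffe40010905042a = true := by decide +kernel

theorem ok_1556 : oF 0x90002000b000800043ffe40004000400201002a28 = true := by decide +kernel

theorem ok_2272 : oF 0x1000000010000000a000a000a40013ffd40014001251f1f1a = true := by decide +kernel

theorem o_2311_2313 : allTr oF to_2311_2313 = true := by decide +kernel

theorem ok_2017 : oF 0x10000000000010002000600063ffe40013fff40022118180f = true := by decide +kernel

theorem ok_1182 : oF 0x7000100060002000040003fff3ffe40031b171612 = true := by decide +kernel

theorem ok_1124 : oF 0x600020009000600024000400240003ffe2521201b = true := by decide +kernel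

theorem ok_2281 : oF 0x100000001000100000006000640003ffc400240021611110c = true := by decide +kernel

theorem ok_568 : oF 0x20002000100043ffc40014000400314171113 = true := by decide +kernel

theorem ok_1947 : oF 0x10000000000000008000100013ffd4001400040022718180a = true := by decide +kernel

theorem ok_278 : oF 0x10002000500033fff40013ffd40031716100f = true := by decide +kernel

theorem ok_1797 : oF 0xb00020002000000023fff40033fff3fff2622201b = true := by decide +kernel

theorem ok_2214 : oF 0x10000000000020008000a000a40013fff40023ffe091a1a2a = true := by decide +kernel

end MPbbea99G.E4
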