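import Pool.Agent.Lib.Pbbea99G.E4.Data

/-!
# MP_bbea99_co: windows over the templates
-/

namespace MPbbea99G.E4

open MPbbea99S MPbbea99T MPbbea99G Finset

theorem o_1415_1426 : allTr oF to_1415_1426 = true := by decide +kernel

theorem o_1925_1936 : allTr oF to_1925_1936 = true := by decide +kernel

theorem o_2528_2539 : allTr oF to_2528_2539 = true := by decide +kernel

theorem o_2647_2649 : allTr oF to_2647_2649 = true := by decide +kernel

theorem o_2752_2754 : allTr oF to_2752_2754 = true := by decide +kernel

theorem o_2789_2791 : allTr oF to_2789_2791 = true := by decide +kernel

theorem o_2951_2953 : allTr oF to_2951_2953 = true := by decide +kernel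

theorem o_1381_1383 : allTr oF to_1381_1383 = true := by decide +kernel

theorem ok_2722 : oF 0x10000000500010004000100013fff40004001400027262625 = true := by decide +kernel

theorem ok_2309 : oF 0x10000000100020004000a000a40003fff40004001231f1f1a = true := by decide +kernel

theorem ok_1353 : oF 0x8000200060009000a3ffe40013fff4002211f1e1b = true := by decide +kernel

theorem o_1673_1674 : allTr oF to_1673_1674 = true := by decide +kernel

theorem o_2897_2898 : allTr oF to_2897_2898 = true := by decide +kernel

theorem ok_1516 : oF 0x900020002000900053ffe40004000400226252422 = true := by decide +kernel

theorem ok_2674 : oF 0x10000000500000006000100013fff3fff40024000201e1e1d = true := by decide +kernel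

theorem o_1505_1506 : allTr oF to_1505_1506 = true := by decide +kernel

theorem o_2192_2202 : allTr oF to_2192_2202 = true := by decide +kernel

theorem o_2157_2168 : allTr oF to_2157_2168 = true := by decide +kernel

theorem ok_2912 : oF 0x100010000000500020002000200023fff40004000400114141413 = true := by decide +kernel

theorem ok_1515 : oF 0x900020002000900053ffe4000400040021b1a1917 = true := by decide +kernel

theorem ok_2573 : oF 0x100000004000100010006000640003fff4001400019171715 = true := by decide +kernel

theorem ok_2812 : oF 0x100000000000a00020004000400013fff4000400040012a2a2928 = true := by decide +kernel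

theorem ok_2815 : oF 0x100000000000a00020005000500023fff40004000400104040302 = true := by decide +kernel

theorem o_2816_2817 : allTr oF to_2816_2817 = true := by decide +kernel

theorem ok_2354 : oF 0x1000000020001000200090009400040013fff400018141410 = true := by decide +kernel

theorem ok_2809 : oF 0x100000000000a00020004000400013fff4000400040011f1f1e1d = true := by decide +kernel

theorem o_1946_1947 : allTr oF to_1946_1947 = true := by decide +kernel

theorem o_905_910 : allTr oF to_905_910 = true := by decide +kernel

theorem o_2169_2179 : allTr oF to_2169_2179 = true := by decide +kernel

theorem o_1186_1188 : allTr oF to_1186_1188 = true := by decide +kernel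

theorem ok_2493 : oF 0x10000000300020006000900093fff3fff400040021c1a1a17 = true := by decide +kernel

theorem o_2758_2759 : allTr oF to_2758_2759 = true := by decide +kernel

theorem ok_2754 : oF 0x10001000600000001000000004001400040003fff0d0c0c0c = true := by decide +kernel

theorem ok_2873 : oF 0x100000001000b000100020002000040004000400040001d1d1c1c = true := by decide +kernel

theorem ok_2782 : oF 0x10001000600000002000000004001400040003fff18171717 = true := by decide +kernel

theorem ok_2208 : oF 0x10000000000020008000100014001400140003ffe1711110a = true := by decide +kernel

theorem o_1937_1942 : allTr oF to_1937_1942 = true := by decide +kernel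

theorem ok_2664 : oF 0x1000000050000000300020002400040013ffe400109070706 = true := by decide +kernel

theorem o_993_997 : allTr oF to_993_997 = true := by decide +kernel

theorem ok_1562 : oF 0x90002000b000a00093ffe3ffe4001400317110f08 = true := by decide +kernel

theorem ok_2249 : oF 0x100000001000000010002000240013ffe3ffe40032822221d = true := by decide +kernel

theorem o_557_568 : allTr oF to_557_568 = true := by decide +kernel

theorem ok_1548 : oF 0x900020009000a00063ffe3fff4001400202010029 = true := by decide +kernel

theorem o_1122_1124 : allTr oF to_1122_1124 = true := by decide +kernel

theorem ok_927 : oF 0x400010003000400014000400140013ffe1912110a = true := by decide +kernel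

theorem ok_1774 : oF 0xb000100060000000240003fff40023fff1d181611 = true := by decide +kernel

theorem ok_2562 : oF 0x1000000040000000b000600063fff3ffe4000400303000029 = true := by decide +kernel

theorem ok_1354 : oF 0x800020006000b00013ffb3fff400240040e1e1827 = true := by decide +kernel

theorem ok_986 : oF 0x500000008000a00063ffd4001400140010024231d = true := by decide +kernel

theorem ok_1223 : oF 0x700020005000100003ffd400040034000110e0d09 = true := by decide +kernel

theorem ok_1971 : oF 0x1000000000000000b000500053fff40023ffc400317131310 = true := by decide +kernel

theorem ok_2429 : oF 0x10000000300000006000800083ffd3fff400040040e0a0a07 = true := by decide +kernel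

end MPbbea99G.E4
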