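import Pool.Agent.Lib.Pbbea99G.E4.Data

/-!
# MP_bbea99_co: windows over the templates
-/

namespace MPbbea99G.E4

open MPbbea99S MPbbea99T MPbbea99G Finset

theorem o_2569_2571 : allTr oF to_2569_2571 = true := by decide +kernel

theorem o_2366_2371 : allTr oF to_2366_2371 = true := by decide +kernel

theorem o_2627_2629 : allTr oF to_2627_2629 = true := by decide +kernel

theorem o_1752_1757 : allTr oF to_1752_1757 = true := by decide +kernel

theorem o_1798_1808 : allTr oF to_1798_1808 = true := by decide +kernel

theorem o_2868_2870 : allTr oF to_2868_2870 = true := by decide +kernel

theorem o_1838_1840 : allTr oF to_1838_1840 = true := by decide +kernel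

theorem o_2412_2414 : allTr oF to_2412_2414 = true := by decide +kernel

theorem o_2920_2921 : allTr oF to_2920_2921 = true := by decide +kernel

theorem ok_2800 : oF 0x100000000000a00020003000300013fff40004000400129292827 = true := by decide +kernel

theorem ok_2886 : oF 0x100010000000500020001000100013fff4000400040010b0b0b0a = true := by decide +kernel

theorem o_1464_1465 : allTr oF to_1464_1465 = true := by decide +kernel

theorem o_1230_1235 : allTr oF to_1230_1235 = true := by decide +kernel

theorem ok_2901 : oF 0x100010000000500020001000100013fff40004000400129292928 = true := by decide +kernel

theorem o_1633_1634 : allTr oF to_1633_1634 = true := by decide +kernel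

theorem ok_2909 : oF 0x100010000000500020002000200023fff4000400040011010100f = true := by decide +kernel

theorem ok_2892 : oF 0x100010000000500020001000100013fff40004000400119191918 = true := by decide +kernel

theorem o_2583_2585 : allTr oF to_2583_2585 = true := by decide +kernel

theorem o_1653_1655 : allTr oF to_1653_1655 = true := by decide +kernel

theorem ok_2565 : oF 0x100000004000100000004000440003ffe40004002211f1f1d = true := by decide +kernel

theorem o_1392_1403 : allTr oF to_1392_1403 = true := by decide +kernel

theorem o_2633_2634 : allTr oF to_2633_2634 = true := by decide +kernel

theorem o_1610_1612 : allTr oF to_1610_1612 = true := by decide +kernel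

theorem o_2047_2052 : allTr oF to_2047_2052 = true := by decide +kernel

theorem o_940_951 : allTr oF to_940_951 = true := by decide +kernel

theorem ok_2824 : oF 0x100000000000a00020005000500023fff40004000400124242322 = true := by decide +kernel

theorem o_2457_2458 : allTr oF to_2457_2458 = true := by decide +kernel

theorem o_0_23 : allTr oF to_0_23 = true := by decide +kernel

theorem ok_2341 : oF 0x10000000200000006000100014001400140003ffe2823231f = true := by decide +kernel

theorem ok_1757 : oF 0xb0000000a00000002400140023ffe3fff2822201b = true := by decide +kernel

theorem o_2041_2046 : allTr oF to_2041_2046 = true := by decide +kernel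

theorem ok_2751 : oF 0x10001000600000001000000004001400040003fff06050505 = true := by decide +kernel

theorem ok_2785 : oF 0x10001000600000002000000004001400040003fff1f1e1e1e = true := by decide +kernel

theorem ok_2933 : oF 0x10001000100060001000000000000400040004000400009090909 = true := by decide +kernel

theorem ok_1849 : oF 0x1000b0000000500020000400140003fff400008070606 = true := by decide +kernel

theorem o_2454_2455 : allTr oF to_2454_2455 = true := by decide +kernel

theorem ok_1585 : oF 0xa00000002000500023fff40013ffe40020f0d0c0b = true := by decide +kernel

theorem ok_1159 : oF 0x70000000a0004000140003ffe400140011914130f = true := by decide +kernel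

theorem o_1346_1351 : allTr oF to_1346_1351 = true := by decide +kernel

theorem ok_2441 : oF 0x10000000300010000000800083ffe4002400040002522221f = true := by decide +kernel

theorem ok_1026 : oF 0x500020005000000063fff3fff40033fff2823221c = true := by decide +kernel

theorem ok_2330 : oF 0x10000000200000003000400044000400140003fff1f1a1a16 = true := by decide +kernel

theorem o_1577_1579 : allTr oF to_1577_1579 = true := by decide +kernel

theorem ok_2371 : oF 0x10000000200010005000700073ffe40003fff40032622221e = true := by decide +kernel

theorem ok_1136 : oF 0x7000000000002000040013ffe3ffe40032722211d = true := by decide +kernel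

theorem ok_1142 : oF 0x70000000100040006400040023ffe4000241a180f = true := by decide +kernel

theorem ok_1334 : oF 0x800020003000600024000400240003ffe12181015 = true := by decide +kernel

theorem ok_672 : oF 0x20005000100083ffd40023ffe400315171213 = true := by decide +kernel

theorem ok_301 : oF 0x10002000b000740023ffe3ffe40021c141109 = true := by decide +kernel

theorem ok_1705 : oF 0xa000200000001000a3fff400040043ffd0d030020 = true := by decide +kernel

theorem ok_2168 : oF 0x10000000000020004000500053ffe400540003ffd10151519 = true := by decide +kernel

end MPbbea99G.E4
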