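import Pool.Agent.Lib.Pbbea99G.E4.Data

/-!
# MP_bbea99_co: windows over the templates
-/

namespace MPbbea99G.E4

open MPbbea99S MPbbea99T MPbbea99G Finset

theorem o_1299_1322 : allTr oF to_1299_1322 = true := by decide +kernel

theorem o_2477_2481 : allTr oF to_2477_2481 = true := by decide +kernel

theorem o_1867_1872 : allTr oF to_1867_1872 = true := by decide +kernel

theorem o_1189_1194 : allTr oF to_1189_1194 = true := by decide +kernel

theorem o_2760_2762 : allTr oF to_2760_2762 = true := by decide +kernel

theorem o_2842_2844 : allTr oF to_2842_2844 = true := by decide +kernel

theorem o_2957_2959 : allTr oF to_2957_2959 = true := by decide +kernel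

theorem o_2331_2336 : allTr oF to_2331_2336 = true := by decide +kernel

theorem ok_2710 : oF 0x10000000500010003000100013fff40004001400026252524 = true := by decide +kernel

theorem ok_1632 : oF 0xa00010000000300013fff40014000400006050403 = true := by decide +kernel

theorem o_2740_2741 : allTr oF to_2740_2741 = true := by decide +kernel

theorem ok_2734 : oF 0x1000000050001000500020002400040003fff4001201f1f1e = true := by decide +kernel

theorem ok_2903 : oF 0x100010000000500020002000200023fff40004000400102020201 = true := by decide +kernel

theorem ok_1247 : oF 0x8000000020009000a400040003fff400118141310 = true := by decide +kernel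

theorem ok_2411 : oF 0x10000000300000000000a000a3fff3fff3fff400317131310 = true := by decide +kernel

theorem ok_2613 : oF 0x10000000400020000000300033fff40013fff400126252523 = true := by decide +kernel

theorem o_1676_1677 : allTr oF to_1676_1677 = true := by decide +kernel

theorem o_859_864 : allTr oF to_859_864 = true := by decide +kernel

theorem o_2209_2214 : allTr oF to_2209_2214 = true := by decide +kernel

theorem o_1873_1878 : allTr oF to_1873_1878 = true := by decide +kernel

theorem o_2690_2691 : allTr oF to_2690_2691 = true := by decide +kernel

theorem o_2630_2631 : allTr oF to_2630_2631 = true := by decide +kernel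

theorem ok_1678 : oF 0xa00010008000400013fff3fff400140010a090807 = true := by decide +kernel

theorem ok_2802 : oF 0x100000000000a00020004000400013fff40004000400107070605 = true := by decide +kernel

theorem o_1650_1651 : allTr oF to_1650_1651 = true := by decide +kernel

theorem ok_2655 : oF 0x1000000040002000a000600063fff3fff4001400124232321 = true := by decide +kernel

theorem o_1569_1571 : allTr oF to_1569_1571 = true := by decide +kernel

theorem o_2696_2697 : allTr oF to_2696_2697 = true := by decide +kernel

theorem o_1355_1357 : allTr oF to_1355_1357 = true := by decide +kernel

theorem ok_1623 : oF 0xa0000000a0004000140003ffe400140010e0c0b0a = true := by decide +kernel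

theorem o_2520_2521 : allTr oF to_2520_2521 = true := by decide +kernel

theorem o_2966_2967 : allTr oF to_2966_2967 = true := by decide +kernel

theorem ok_2771 : oF 0x10001000600000002000000004001400040003fff03020202 = true := by decide +kernel

theorem ok_2942 : oF 0x10001000100060001000000000000400040004000400012121212 = true := by decide +kernel

theorem ok_1846 : oF 0x1000b0000000500020000400140003fff4000002a2929 = true := by decide +kernel

theorem o_2180_2185 : allTr oF to_2180_2185 = true := by decide +kernel

theorem ok_1409 : oF 0x900000006000a00063fff3fff3fff400316131210 = true := by decide +kernel

theorem ok_1618 : oF 0xa000000090006000240003ffe400040020c0a0908 = true := by decide +kernel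

theorem ok_1345 : oF 0x8000200060000000340003fff4001400022201f1c = true := by decide +kernel

theorem o_1691_1693 : allTr oF to_1691_1693 = true := by decide +kernel

theorem o_1444_1446 : allTr oF to_1444_1446 = true := by decide +kernel

theorem o_917_927 : allTr oF to_917_927 = true := by decide +kernel

theorem ok_2608 : oF 0x1000000040001000b000500053ffe40013fff400202000029 = true := by decide +kernel

theorem ok_2133 : oF 0x10000000000020001000b000b40013ffe3ffe40032319190e = true := by decide +kernel

theorem ok_1594 : oF 0xa000000050002000640013ffe3ffe40031e17150f = true := by decide +kernel

theorem o_2546_2550 : allTr oF to_2546_2550 = true := by decide +kernel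

theorem ok_1020 : oF 0x500020002000200004001400140013ffd14170f11 = true := by decide +kernel

theorem ok_1588 : oF 0xa00000003000400083fff400140023ffe1912100a = true := by decide +kernel

theorem ok_834 : oF 0x200000008000000063fff3fff40033fff00212017 = true := by decide +kernel

theorem ok_1049 : oF 0x600000004000000033fff3fff3fff4003201a1914 = true := by decide +kernel

theorem ok_1942 : oF 0x100000000000000070006000640013ffd40033fff2a202017 = true := by decide +kernel

theorem ok_2351 : oF 0x10000000200010001000100013ffe40033fff40001612120e = true := by decide +kernel

end MPbbea99G.E4
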