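import Pool.Agent.Lib.Pbbea99G.E4.Data

/-!
# MP_bbea99_co: windows over the templates
-/

namespace MPbbea99G.E4

open MPbbea99S MPbbea99T MPbbea99G Finset

theorem o_2639_2641 : allTr oF to_2639_2641 = true := by decide +kernel

theorem o_2586_2588 : allTr oF to_2586_2588 = true := by decide +kernel

theorem o_1586_1588 : allTr oF to_1586_1588 = true := by decide +kernel

theorem o_2296_2301 : allTr oF to_2296_2301 = true := by decide +kernel

theorem o_2775_2777 : allTr oF to_2775_2777 = true := by decide +kernel

theorem o_2928_2930 : allTr oF to_2928_2930 = true := by decide +kernel

theorem o_1850_1852 : allTr oF to_1850_1852 = true := by decide +kernel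

theorem o_1047_1049 : allTr oF to_1047_1049 = true := by decide +kernel

theorem o_2726_2727 : allTr oF to_2726_2727 = true := by decide +kernel

theorem ok_2744 : oF 0x1000000050001000600020002400040003fff40011d1c1c1b = true := by decide +kernel

theorem ok_1669 : oF 0xa00010007000300013fff4001400040000201002a = true := by decide +kernel

theorem o_2792_2793 : allTr oF to_2792_2793 = true := by decide +kernel

theorem ok_2675 : oF 0x10000000500000006000100013fff3fff4002400028262625 = true := by decide +kernel

theorem o_2737_2738 : allTr oF to_2737_2738 = true := by decide +kernel

theorem ok_1664 : oF 0xa00010006000400013fff3fff400140010d0c0b0a = true := by decide +kernel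

theorem ok_2353 : oF 0x10000000200010002000100013ffe3fff400340001713130f = true := by decide +kernel

theorem o_2822_2823 : allTr oF to_2822_2823 = true := by decide +kernel

theorem ok_2666 : oF 0x1000000050000000300020002400040013ffe400114121211 = true := by decide +kernel

theorem ok_2907 : oF 0x100010000000500020002000200023fff4000400040010a0a0a09 = true := by decide +kernel

theorem o_1253_1258 : allTr oF to_1253_1258 = true := by decide +kernel

theorem ok_2806 : oF 0x100000000000a00020004000400013fff40004000400114141312 = true := by decide +kernel

theorem ok_1185 : oF 0x700010006000400013fff3fff400140011814130f = true := by decide +kernel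

theorem ok_1328 : oF 0x800020000000500073fff40013ffe40021311100d = true := by decide +kernel

theorem ok_1120 : oF 0x600020007000b00093ffe40003fff4003231f1e19 = true := by decide +kernel

theorem o_2448_2453 : allTr oF to_2448_2453 = true := by decide +kernel

theorem o_2688_2689 : allTr oF to_2688_2689 = true := by decide +kernel

theorem o_2819_2820 : allTr oF to_2819_2820 = true := by decide +kernel

theorem o_2337_2339 : allTr oF to_2337_2339 = true := by decide +kernel

theorem o_2523_2527 : allTr oF to_2523_2527 = true := by decide +kernel

theorem ok_2360 : oF 0x1000000020001000400010001400140023fff3ffe1c181814 = true := by decide +kernel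

theorem o_824_834 : allTr oF to_824_834 = true := by decide +kernel

theorem o_685_695 : allTr oF to_685_695 = true := by decide +kernel

theorem ok_2861 : oF 0x100000001000b0001000200020000400040004000400007070606 = true := by decide +kernel

theorem ok_2956 : oF 0x10001000100060001000000000000400040004000400020202020 = true := by decide +kernel

theorem ok_1854 : oF 0x1000b0000000500020000400140003fff400019181717 = true := by decide +kernel

theorem o_534_556 : allTr oF to_534_556 = true := by decide +kernel

theorem o_464_487 : allTr oF to_464_487 = true := by decide +kernel

theorem ok_2052 : oF 0x100000000000100050008000840003ffe40033fff13141415 = true := by decide +kernel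

theorem ok_1208 : oF 0x700020002000200094000400140003fff23201f1b = true := by decide +kernel

theorem o_210_221 : allTr oF to_210_221 = true := by decide +kernel

theorem ok_1814 : oF 0xb000200060006000a40013ffd4001400109050329 = true := by decide +kernel

theorem o_1642_1646 : allTr oF to_1642_1646 = true := by decide +kernel

theorem ok_788 : oF 0x2000a0000000340023fff3ffe400111151417 = true := by decide +kernel

theorem ok_1739 : oF 0xb00000001000200073ffd400140014001251a170d = true := by decide +kernel

theorem ok_858 : oF 0x3000000000001000140013fff40033ffd12160f14 = true := by decide +kernel

theorem ok_92 : oF 0x30004000b3ffd40023ffe400316151313 = true := by decide +kernel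

theorem ok_556 : oF 0x20001000a000240013ffd3ffd400511131112 = true := by decide +kernel

theorem ok_1426 : oF 0x90000000b000700033ffe40023ffd40031f1c1b19 = true := by decide +kernel

theorem ok_221 : oF 0x100000008000b40023ffd40023fff1d141108 = true := by decide +kernel

theorem ok_1609 : oF 0xa000000070008000b3ffb4002400340000c050328 = true := by decide +kernel

theorem ok_2087 : oF 0x10000000000010008000a000a40023ffc3fff400310131316 = true := by decide +kernel

end MPbbea99G.E4
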