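import Pool.Agent.Lib.Pbbea99G.E4.Data

/-!
# MP_bbea99_co: windows over the templates
-/

namespace MPbbea99G.E4

open MPbbea99S MPbbea99T MPbbea99G Finset

theorem o_1960_1965 : allTr oF to_1960_1965 = true := by decide +kernel

theorem o_1206_1208 : allTr oF to_1206_1208 = true := by decide +kernel

theorem o_673_684 : allTr oF to_673_684 = true := by decide +kernel

theorem o_2186_2191 : allTr oF to_2186_2191 = true := by decide +kernel

theorem o_24_46 : allTr oF to_24_46 = true := by decide +kernel

theorem o_2862_2864 : allTr oF to_2862_2864 = true := by decide +kernel

theorem o_1832_1834 : allTr oF to_1832_1834 = true := by decide +kernel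

theorem o_2589_2591 : allTr oF to_2589_2591 = true := by decide +kernel

theorem ok_2616 : oF 0x10000000400020000000600063fff3fff4001400123222220 = true := by decide +kernel

theorem ok_2834 : oF 0x100000000000a00020006000600023fff40004000400122222120 = true := by decide +kernel

theorem o_2729_2730 : allTr oF to_2729_2730 = true := by decide +kernel

theorem o_2717_2718 : allTr oF to_2717_2718 = true := by decide +kernel

theorem ok_2893 : oF 0x100010000000500020001000100013fff4000400040011a1a1a19 = true := by decide +kernel

theorem o_2894_2895 : allTr oF to_2894_2895 = true := by decide +kernel

theorem ok_2835 : oF 0x100000000000a00020006000600023fff40004000400123232221 = true := by decide +kernel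

theorem ok_1635 : oF 0xa00010000000300013fff40014000400026252423 = true := by decide +kernel

theorem ok_2883 : oF 0x100010000000500020001000100013fff40004000400105050504 = true := by decide +kernel

theorem ok_1667 : oF 0xa00010006000400013fff3fff4001400128272625 = true := by decide +kernel

theorem ok_1465 : oF 0x900010006000900053fff40003fff4002100e0d0b = true := by decide +kernel

theorem o_1697_1698 : allTr oF to_1697_1698 = true := by decide +kernel

theorem ok_1686 : oF 0xa00010009000500023fff40013fff400105040302 = true := by decide +kernel

theorem ok_2625 : oF 0x10000000400020006000400043fff3fff4000400208070705 = true := by decide +kernel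

theorem ok_1689 : oF 0xa00010009000500023fff40013fff400125242322 = true := by decide +kernel

theorem o_2807_2808 : allTr oF to_2807_2808 = true := by decide +kernel

theorem ok_1626 : oF 0xa0000000b000400013ffe3fff4002400104020100 = true := by decide +kernel

theorem o_1580_1581 : allTr oF to_1580_1581 = true := by decide +kernel

theorem ok_1406 : oF 0x900000006000300073ffe40013fff40022a222019 = true := by decide +kernel

theorem o_1723_1728 : allTr oF to_1723_1728 = true := by decide +kernel

theorem ok_1771 : oF 0xb00010005000700013ffe40014000400115100e09 = true := by decide +kernel

theorem o_1484_1495 : allTr oF to_1484_1495 = true := by decide +kernel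

theorem ok_1791 : oF 0xb00020001000100044000400140003fff15110f0a = true := by decide +kernel

theorem o_1294_1296 : allTr oF to_1294_1296 = true := by decide +kernel

theorem ok_2765 : oF 0x10001000600000001000000004001400040003fff25242424 = true := by decide +kernel

theorem ok_2924 : oF 0x10001000100060001000000000000400040004000400000000000 = true := by decide +kernel

theorem ok_1826 : oF 0x1000b00000003000100004000400040013fff06050404 = true := by decide +kernel

theorem o_1769_1771 : allTr oF to_1769_1771 = true := by decide +kernel

theorem ok_1460 : oF 0x90001000600000003400140003ffe40011d1b1a18 = true := by decide +kernel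

theorem o_2459_2464 : allTr oF to_2459_2464 = true := by decide +kernel

theorem ok_2490 : oF 0x100000003000200060000000040013fff3ffe40021d1b1b18 = true := by decide +kernel

theorem ok_1055 : oF 0x6000000050006000240013ffe40023fff2822211c = true := by decide +kernel

theorem ok_1768 : oF 0xb000100040002000540013fff40013fff2a25231e = true := by decide +kernel

theorem o_1137_1139 : allTr oF to_1137_1139 = true := by decide +kernel

theorem o_1407_1409 : allTr oF to_1407_1409 = true := by decide +kernel

theorem ok_1994 : oF 0x10000000000010000000b000b40003ffe3ffe400412141416 = true := by decide +kernel

theorem o_2500_2504 : allTr oF to_2500_2504 = true := by decide +kernel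

theorem ok_1600 : oF 0xa00000006000a000440023ffd40033ffe0d060429 = true := by decide +kernel

theorem ok_2464 : oF 0x1000000030001000a0000000040023ffe3ffe40021e1b1b18 = true := by decide +kernel

theorem ok_1504 : oF 0x9000200010002000040013ffd4001400111181016 = true := by decide +kernel

theorem ok_533 : oF 0x20001000100013fff400040043ffd0d16121a = true := by decide +kernel

theorem ok_1817 : oF 0xb000200080006000340043ffd40003fff07150e1b = true := by decide +kernel

theorem ok_2237 : oF 0x1000000000002000b000000003ffd40004000400300222218 = true := by decide +kernel

end MPbbea99G.E4
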