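import Pool.Agent.Lib.Pbbea99G.E4.Data

/-!
# MP_bbea99_co: windows over the templates
-/

namespace MPbbea99G.E4

open MPbbea99S MPbbea99T MPbbea99G Finset

theorem o_2693_2695 : allTr oF to_2693_2695 = true := by decide +kernel

theorem o_2679_2681 : allTr oF to_2679_2681 = true := by decide +kernel

theorem o_581_603 : allTr oF to_581_603 = true := by decide +kernel

theorem o_2215_2225 : allTr oF to_2215_2225 = true := by decide +kernel

theorem o_911_916 : allTr oF to_911_916 = true := by decide +kernel

theorem o_2931_2933 : allTr oF to_2931_2933 = true := by decide +kernel

theorem o_1855_1857 : allTr oF to_1855_1857 = true := by decide +kernel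

theorem o_2343_2348 : allTr oF to_2343_2348 = true := by decide +kernel

theorem o_2711_2712 : allTr oF to_2711_2712 = true := by decide +kernel

theorem ok_2741 : oF 0x1000000050001000600020002400040003fff400112111110 = true := by decide +kernel

theorem ok_2919 : oF 0x100010000000500020002000200023fff40004000400121212120 = true := by decide +kernel

theorem ok_2900 : oF 0x100010000000500020001000100013fff40004000400128282827 = true := by decide +kernel

theorem o_2882_2883 : allTr oF to_2882_2883 = true := by decide +kernel

theorem ok_2799 : oF 0x100000000000a00020003000300013fff40004000400126262524 = true := by decide +kernel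

theorem ok_2718 : oF 0x10000000500010004000100013fff40004001400016151514 = true := by decide +kernel

theorem o_1572_1574 : allTr oF to_1572_1574 = true := by decide +kernel

theorem ok_1681 : oF 0xa00010008000400013fff3fff400140011d1c1b1a = true := by decide +kernel

theorem o_1119_1120 : allTr oF to_1119_1120 = true := by decide +kernel

theorem o_1212_1217 : allTr oF to_1212_1217 = true := by decide +kernel

theorem ok_2567 : oF 0x10000000400010000000500053ffe40024000400015131311 = true := by decide +kernel

theorem ok_2808 : oF 0x100000000000a00020004000400013fff4000400040011c1c1b1a = true := by decide +kernel

theorem ok_1432 : oF 0x900010002000300053fff400140013fff16141311 = true := by decide +kernel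

theorem ok_2611 : oF 0x10000000400020000000300033fff40013fff40010f0e0e0c = true := by decide +kernel

theorem o_279_301 : allTr oF to_279_301 = true := by decide +kernel

theorem ok_1497 : oF 0x900020000000300053ffe400140014000201f1e1c = true := by decide +kernel

theorem o_2123_2133 : allTr oF to_2123_2133 = true := by decide +kernel

theorem o_1534_1536 : allTr oF to_1534_1536 = true := by decide +kernel

theorem o_2810_2811 : allTr oF to_2810_2811 = true := by decide +kernel

theorem ok_2313 : oF 0x10000000100020006000400043ffd400140024000130f0f0a = true := by decide +kernel

theorem o_2471_2476 : allTr oF to_2471_2476 = true := by decide +kernel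

theorem ok_1435 : oF 0x900010002000300073ffd40014000400229222019 = true := by decide +kernel

theorem o_2624_2625 : allTr oF to_2624_2625 = true := by decide +kernel

theorem ok_2838 : oF 0x100000001000b0001000100010000400040004000400004040303 = true := by decide +kernel

theorem ok_2953 : oF 0x1000100010006000100000000000040004000400040001d1d1d1d = true := by decide +kernel

theorem ok_1831 : oF 0x1000b00000003000100004000400040013fff25242323 = true := by decide +kernel

theorem ok_2643 : oF 0x10000000400020009000500053ffe40014000400101000029 = true := by decide +kernel

theorem o_2268_2272 : allTr oF to_2268_2272 = true := by decide +kernel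

theorem o_1821_1823 : allTr oF to_1821_1823 = true := by decide +kernel

theorem ok_1823 : oF 0xb0002000b000800033ffe4000400040021915130e = true := by decide +kernel

theorem o_847_858 : allTr oF to_847_858 = true := by decide +kernel

theorem ok_2122 : oF 0x10000000000020001000600063fff3ffe400040032823231d = true := by decide +kernel

theorem ok_1015 : oF 0x5000200000006000440023ffd400140000a050429 = true := by decide +kernel

theorem o_1329_1334 : allTr oF to_1329_1334 = true := by decide +kernel

theorem ok_2365 : oF 0x10000000200010005000000003ffe400040033fff110d0d09 = true := by decide +kernel

theorem ok_2278 : oF 0x100000001000100000002000240003ffe400240002621211c = true := by decide +kernel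

theorem ok_1270 : oF 0x800000006000a00023fff40023ffd40022219170f = true := by decide +kernel

theorem ok_1275 : oF 0x80000000b0002000940003ffd400040030a060502 = true := by decide +kernel

theorem ok_2453 : oF 0x10000000300010006000000003ffe400040033fff1512120f = true := by decide +kernel

theorem ok_933 : oF 0x400010007000000004004400040003ffc10160f15 = true := by decide +kernel

theorem ok_1101 : oF 0x600020000000600023fff3ffe400340001b171611 = true := by decide +kernel

theorem ok_1924 : oF 0x10000000000000004000b000b3ffc3ffd4002400519101008 = true := by decide +kernel

theorem ok_2348 : oF 0x10000000200000009000b000b40003ffd3ffe4005100b0b07 = true := by decide +kernel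

end MPbbea99G.E4
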