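import Pool.Agent.Lib.Pbbea99G.E4.Data

/-!
# MP_bbea99_co: windows over the templates
-/

namespace MPbbea99G.E4

open MPbbea99S MPbbea99T MPbbea99G Finset

theorem o_2494_2499 : allTr oF to_2494_2499 = true := by decide +kernel

theorem o_2609_2611 : allTr oF to_2609_2611 = true := by decide +kernel

theorem o_371_417 : allTr oF to_371_417 = true := by decide +kernel

theorem o_1560_1562 : allTr oF to_1560_1562 = true := by decide +kernel

theorem o_1218_1223 : allTr oF to_1218_1223 = true := by decide +kernel

theorem o_2934_2936 : allTr oF to_2934_2936 = true := by decide +kernel

theorem o_1858_1860 : allTr oF to_1858_1860 = true := by decide +kernel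

theorem o_2427_2429 : allTr oF to_2427_2429 = true := by decide +kernel

theorem o_2705_2706 : allTr oF to_2705_2706 = true := by decide +kernel

theorem ok_2738 : oF 0x1000000050001000600020002400040003fff400103020201 = true := by decide +kernel

theorem ok_2880 : oF 0x100010000000500020001000100013fff4000400040010000002a = true := by decide +kernel

theorem ok_1674 : oF 0xa00010007000300013fff4001400040002a292827 = true := by decide +kernel

theorem o_1601_1603 : allTr oF to_1601_1603 = true := by decide +kernel

theorem ok_2697 : oF 0x1000000050000000a0002000240013fff3fff40010b090908 = true := by decide +kernel

theorem o_2833_2834 : allTr oF to_2833_2834 = true := by decide +kernel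

theorem ok_2539 : oF 0x10000000400000006000500053fff40013ffe400207040402 = true := by decide +kernel

theorem ok_2683 : oF 0x10000000500000008000100013fff3fff4002400003010100 = true := by decide +kernel

theorem o_2563_2564 : allTr oF to_2563_2564 = true := by decide +kernel

theorem ok_1663 : oF 0xa00010006000400013fff3fff4001400108070605 = true := by decide +kernel

theorem ok_1501 : oF 0x900020001000000063fff4000400140001312110f = true := by decide +kernel

theorem ok_2823 : oF 0x100000000000a00020005000500023fff40004000400120201f1e = true := by decide +kernel

theorem o_1589_1594 : allTr oF to_1589_1594 = true := by decide +kernel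

theorem ok_2811 : oF 0x100000000000a00020004000400013fff40004000400127272625 = true := by decide +kernel

theorem o_2279_2280 : allTr oF to_2279_2280 = true := by decide +kernel

theorem o_2673_2674 : allTr oF to_2673_2674 = true := by decide +kernel

theorem ok_2663 : oF 0x1000000050000000300020002400040013ffe40010200002a = true := by decide +kernel

theorem ok_2684 : oF 0x10000000500000008000100013fff3fff400240000a080807 = true := by decide +kernel

theorem o_1995_2006 : allTr oF to_1995_2006 = true := by decide +kernel

theorem ok_2582 : oF 0x10000000400010002000500053ffe40013fff400226242422 = true := by decide +kernel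

theorem ok_1530 : oF 0x900020005000700033ffe40013fff40021d1c1b19 = true := by decide +kernel

theorem ok_2414 : oF 0x10000000300000001000600063fff3ffe40004003110d0d0a = true := by decide +kernel

theorem ok_2649 : oF 0x1000000040002000a000600063fff3fff4001400101000029 = true := by decide +kernel

theorem ok_2867 : oF 0x100000001000b0001000200020000400040004000400012121111 = true := by decide +kernel

theorem ok_2875 : oF 0x100000001000b0001000200020000400040004000400021212020 = true := by decide +kernel

theorem o_2879_2880 : allTr oF to_2879_2880 = true := by decide +kernel

theorem ok_1072 : oF 0x6000100010009000540013fff3fff40012924231e = true := by decide +kernel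

theorem o_1473_1483 : allTr oF to_1473_1483 = true := by decide +kernel

theorem ok_2571 : oF 0x10000000400010001000400043ffe3fff400140022321211f = true := by decide +kernel

theorem ok_1536 : oF 0x9000200070004000840003fff3fff40022923211a = true := by decide +kernel

theorem ok_2307 : oF 0x10000000100020003000900093ffe3fff3ffe4005221e1e19 = true := by decide +kernel

theorem o_1809_1814 : allTr oF to_1809_1814 = true := by decide +kernel

theorem o_2488_2490 : allTr oF to_2488_2490 = true := by decide +kernel

theorem ok_2255 : oF 0x100000001000000020002000240013ffe40023fff1c161611 = true := by decide +kernel

theorem ok_2426 : oF 0x100000003000000020009000940013ffe40004001120e0e0b = true := by decide +kernel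

theorem ok_1463 : oF 0x900010006000500003ffe400240023ffe20191710 = true := by decide +kernel

theorem ok_1258 : oF 0x8000000040004000a3fff3fff40033fff09050401 = true := by decide +kernel

theorem ok_370 : oF 0x100050004000340023ffe40033ffd11140e11 = true := by decide +kernel

theorem ok_823 : oF 0x100020004000800084002400140003ffd14181114 = true := by decide +kernel

theorem ok_580 : oF 0x20002000600064001400040023ffd14151111 = true := by decide +kernel

theorem ok_1762 : oF 0xb000100000008000840023ffe40004000251b180e = true := by decide +kernel

theorem ok_2290 : oF 0x10000000100010009000200023ffd40023fff4002120d0d08 = true := by decide +kernel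

end MPbbea99G.E4
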