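import Pool.Agent.Lib.Pbbea99G.E4.Data

/-!
# MP_bbea99_co: windows over the templates
-/

namespace MPbbea99G.E4

open MPbbea99S MPbbea99T MPbbea99G Finset

theorem o_569_580 : allTr oF to_569_580 = true := by decide +kernel

theorem o_975_986 : allTr oF to_975_986 = true := by decide +kernel

theorem o_2146_2151 : allTr oF to_2146_2151 = true := by decide +kernel

theorem o_1195_1205 : allTr oF to_1195_1205 = true := by decide +kernel

theorem o_2766_2768 : allTr oF to_2766_2768 = true := by decide +kernel

theorem o_2848_2850 : allTr oF to_2848_2850 = true := by decide +kernel

theorem o_2963_2965 : allTr oF to_2963_2965 = true := by decide +kernel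

theorem o_1520_1525 : allTr oF to_1520_1525 = true := by decide +kernel

theorem ok_2709 : oF 0x10000000500010003000100013fff40004001400025242423 = true := by decide +kernel

theorem ok_1513 : oF 0x900020002000900053ffe40004000400206050402 = true := by decide +kernel

theorem ok_2898 : oF 0x100010000000500020001000100013fff40004000400125252524 = true := by decide +kernel

theorem ok_1581 : oF 0xa00000002000300014000400140003fff1c1a1918 = true := by decide +kernel

theorem ok_2728 : oF 0x1000000050001000500020002400040003fff40010b0a0a09 = true := by decide +kernel

theorem o_1575_1576 : allTr oF to_1575_1576 = true := by decide +kernel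

theorem ok_1698 : oF 0xa0001000a0006000240003fff400040011e1d1c1b = true := by decide +kernel

theorem o_2285_2287 : allTr oF to_2285_2287 = true := by decide +kernel

theorem o_2372_2377 : allTr oF to_2372_2377 = true := by decide +kernel

theorem o_2798_2799 : allTr oF to_2798_2799 = true := by decide +kernel

theorem ok_2660 : oF 0x100000005000000000002000240013fff3fff40011210100f = true := by decide +kernel

theorem ok_1666 : oF 0xa00010006000400013fff3fff40014001201f1e1d = true := by decide +kernel

theorem ok_1680 : oF 0xa00010008000400013fff3fff4001400117161514 = true := by decide +kernel

theorem o_1966_1971 : allTr oF to_1966_1971 = true := by decide +kernel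

theorem ok_1648 : oF 0xa00010003000500023fff40013fff400109080706 = true := by decide +kernel

theorem ok_2677 : oF 0x10000000500000007000100013fff400140013fff07050504 = true := by decide +kernel

theorem o_1647_1648 : allTr oF to_1647_1648 = true := by decide +kernel

theorem ok_1564 : oF 0xa000000000004000140003ffe4001400116141312 = true := by decide +kernel

theorem ok_2803 : oF 0x100000000000a00020004000400013fff40004000400109090807 = true := by decide +kernel

theorem ok_2651 : oF 0x1000000040002000a000600063fff3fff400140010b0a0a08 = true := by decide +kernel

theorem o_1537_1542 : allTr oF to_1537_1542 = true := by decide +kernel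

theorem o_1496_1497 : allTr oF to_1496_1497 = true := by decide +kernel

theorem o_302_324 : allTr oF to_302_324 = true := by decide +kernel

theorem o_1526_1528 : allTr oF to_1526_1528 = true := by decide +kernel

theorem ok_2850 : oF 0x100000001000b000100010001000040004000400040001b1b1a1a = true := by decide +kernel

theorem ok_2959 : oF 0x10001000100060001000000000000400040004000400023232323 = true := by decide +kernel

theorem ok_1863 : oF 0x1000b0000000600020000400140003fff400012111010 = true := by decide +kernel

theorem ok_1553 : oF 0x90002000a0006000440003fff3fff40020e0d0c0a = true := by decide +kernel

theorem o_650_672 : allTr oF to_650_672 = true := by decide +kernel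

theorem ok_2377 : oF 0x10000000200020000000100013ffd3fff400340011613130f = true := by decide +kernel

theorem o_1772_1774 : allTr oF to_1772_1774 = true := by decide +kernel

theorem ok_1351 : oF 0x800020006000700053fff3fff3fff40032a232119 = true := by decide +kernel

theorem ok_2046 : oF 0x10000000000010005000100014000400040033ffd15131311 = true := by decide +kernel

theorem o_1758_1762 : allTr oF to_1758_1762 = true := by decide +kernel

theorem o_2273_2278 : allTr oF to_2273_2278 = true := by decide +kernel

theorem ok_1293 : oF 0x800010001000b00083ffc40023fff400307040300 = true := by decide +kernel

theorem ok_2458 : oF 0x10000000300010007000800083ffe4002400040001411110e = true := by decide +kernel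

theorem ok_910 : oF 0x40000000300020000400040003ffd40031f17160f = true := by decide +kernel

theorem ok_1188 : oF 0x700010007000500033ffd4000400040032118160d = true := by decide +kernel

theorem ok_1414 : oF 0x900000008000800043ffc40014000400306030200 = true := by decide +kernel

theorem ok_487 : oF 0x2000000010001400140033fff3ffd17161210 = true := by decide +kernel

theorem ok_1785 : oF 0xb000100090006000b40033ffd40033ffd07191325 = true := by decide +kernel

theorem ok_2040 : oF 0x100000000000100040009000940013ffe4001400012141416 = true := by decide +kernel

end MPbbea99G.E4
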