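import Pool.Agent.Lib.Pbbea99G.E4.Data

/-!
# MP_bbea99_co: windows over the templates
-/

namespace MPbbea99G.E4

open MPbbea99S MPbbea99T MPbbea99G Finset

theorem o_2053_2064 : allTr oF to_2053_2064 = true := by decide +kernel

theorem o_2603_2608 : allTr oF to_2603_2608 = true := by decide +kernel

theorem o_2319_2330 : allTr oF to_2319_2330 = true := by decide +kernel

theorem o_2030_2035 : allTr oF to_2030_2035 = true := by decide +kernel

theorem o_1763_1768 : allTr oF to_1763_1768 = true := by decide +kernel

theorem o_2945_2947 : allTr oF to_2945_2947 = true := by decide +kernel

theorem o_2853_2855 : allTr oF to_2853_2855 = true := by decide +kernel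

theorem o_1639_1641 : allTr oF to_1639_1641 = true := by decide +kernel

theorem o_2702_2703 : allTr oF to_2702_2703 = true := by decide +kernel

theorem ok_2725 : oF 0x1000000050001000500020002400040003fff40010100002a = true := by decide +kernel

theorem ok_2829 : oF 0x100000000000a00020006000600023fff4000400040011111100f = true := by decide +kernel

theorem ok_1325 : oF 0x8000200000004000a3ffe3fff4002400107050401 = true := by decide +kernel

theorem ok_1565 : oF 0xa000000000004000140003ffe40014001211f1e1d = true := by decide +kernel

theorem o_2902_2903 : allTr oF to_2902_2903 = true := by decide +kernel

theorem o_2572_2573 : allTr oF to_2572_2573 = true := by decide +kernel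

theorem ok_1139 : oF 0x7000000000004000a3ffe3fff40024001140f0e0a = true := by decide +kernel

theorem o_2891_2892 : allTr oF to_2891_2892 = true := by decide +kernel

theorem o_1665_1666 : allTr oF to_1665_1666 = true := by decide +kernel

theorem o_1149_1154 : allTr oF to_1149_1154 = true := by decide +kernel

theorem o_2577_2578 : allTr oF to_2577_2578 = true := by decide +kernel

theorem ok_2657 : oF 0x10000000500000000000100013fff400140013fff0f0d0d0c = true := by decide +kernel

theorem ok_2672 : oF 0x10000000500000006000100013fff3fff400240000d0b0b0a = true := by decide +kernel

theorem ok_1568 : oF 0xa00000000000500023fff40023fff400015131211 = true := by decide +kernel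

theorem ok_1693 : oF 0xa0001000a0006000240003fff4000400101002a29 = true := by decide +kernel

theorem o_2653_2654 : allTr oF to_2653_2654 = true := by decide +kernel

theorem o_1021_1026 : allTr oF to_1021_1026 = true := by decide +kernel

theorem o_1972_1983 : allTr oF to_1972_1983 = true := by decide +kernel

theorem o_2813_2814 : allTr oF to_2813_2814 = true := by decide +kernel

theorem ok_2689 : oF 0x1000000050000000900020002400040013ffe4001012a2a29 = true := by decide +kernel

theorem ok_1606 : oF 0xa00000007000500023fff40023fff400017151413 = true := by decide +kernel

theorem ok_2588 : oF 0x10000000400010005000300033ffe40023fff4001110f0f0d = true := by decide +kernel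

theorem o_789_811 : allTr oF to_789_811 = true := by decide +kernel

theorem ok_2847 : oF 0x100000001000b0001000100010000400040004000400015151414 = true := by decide +kernel

theorem ok_2965 : oF 0x10001000100060001000000000000400040004000400029292929 = true := by decide +kernel

theorem ok_1860 : oF 0x1000b0000000600020000400140003fff400003020101 = true := by decide +kernel

theorem o_1369_1380 : allTr oF to_1369_1380 = true := by decide +kernel

theorem ok_1217 : oF 0x70002000400030001400140023ffe3fff1c191814 = true := by decide +kernel

theorem ok_2202 : oF 0x100000000000200070001000140013fff3fff40012922221a = true := by decide +kernel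

theorem o_1387_1391 : allTr oF to_1387_1391 = true := by decide +kernel

theorem o_1885_1890 : allTr oF to_1885_1890 = true := by decide +kernel

theorem ok_741 : oF 0x20007000400013ffe400040033fff0f18171f = true := by decide +kernel

theorem ok_1525 : oF 0x900020005000300073ffe40013fff400218121009 = true := by decide +kernel

theorem ok_1154 : oF 0x70000000900020009400140023ffe3fff1a151410 = true := by decide +kernel

theorem ok_963 : oF 0x400020009000100003ffe3ffe400340011f191811 = true := by decide +kernel

theorem ok_603 : oF 0x200030001000040023ffe40033ffd0f131215 = true := by decide +kernel

theorem ok_2550 : oF 0x10000000400000009000300033ffe40033ffe400101292927 = true := by decide +kernel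

theorem ok_417 : oF 0x100060009000b3ffb40034001400113151214 = true := by decide +kernel

theorem ok_1483 : oF 0x90001000a000800043ffd40004000400302002a28 = true := by decide +kernel

theorem ok_324 : oF 0x1000300050007400140023ffc400114161113 = true := by decide +kernel

theorem ok_1716 : oF 0xa00020005000100023ffd3ffd40044002081f1a05 = true := by decide +kernel

theorem ok_2191 : oF 0x10000000000020006000500053ffd40033ffc400410121213 = true := by decide +kernel

end MPbbea99G.E4
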