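import Pool.Agent.Lib.Pbbea99G.E4.Data

/-!
# MP_bbea99_co: windows over the templates
-/

namespace MPbbea99G.E4

open MPbbea99S MPbbea99T MPbbea99G Finset

theorem o_1499_1501 : allTr oF to_1499_1501 = true := by decide +kernel

theorem o_1090_1101 : allTr oF to_1090_1101 = true := by decide +kernel

theorem o_2355_2360 : allTr oF to_2355_2360 = true := by decide +kernel

theorem o_1027_1032 : allTr oF to_1027_1032 = true := by decide +kernel

theorem o_2465_2470 : allTr oF to_2465_2470 = true := by decide +kernel

theorem o_2871_2873 : allTr oF to_2871_2873 = true := by decide +kernel

theorem o_1841_1843 : allTr oF to_1841_1843 = true := by decide +kernel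

theorem o_2349_2351 : allTr oF to_2349_2351 = true := by decide +kernel

theorem o_2746_2747 : allTr oF to_2746_2747 = true := by decide +kernel

theorem ok_2791 : oF 0x100000000000a00020003000300013fff4000400040010101002a = true := by decide +kernel

theorem ok_2742 : oF 0x1000000050001000600020002400040003fff400117161615 = true := by decide +kernel

theorem ok_1695 : oF 0xa0001000a0006000240003fff400040010b0a0908 = true := by decide +kernel

theorem o_2899_2900 : allTr oF to_2899_2900 = true := by decide +kernel

theorem ok_2827 : oF 0x100000000000a00020006000600023fff40004000400103030201 = true := by decide +kernel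

theorem ok_2661 : oF 0x100000005000000000002000240013fff3fff400118161615 = true := by decide +kernel

theorem ok_1652 : oF 0xa00010003000500023fff40013fff40011f1e1d1c = true := by decide +kernel

theorem ok_2794 : oF 0x100000000000a00020003000300013fff4000400040010e0e0d0c = true := by decide +kernel

theorem o_2662_2663 : allTr oF to_2662_2663 = true := by decide +kernel

theorem ok_2626 : oF 0x10000000400020006000400043fff3fff400040020d0c0c0a = true := by decide +kernel

theorem ok_1671 : oF 0xa00010007000300013fff400140004000100f0e0d = true := by decide +kernel

theorem ok_1510 : oF 0x90002000200000003400040003fff40011c1b1a18 = true := by decide +kernel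

theorem ok_1507 : oF 0x900020001000800043ffe4000400040022322211f = true := by decide +kernel

theorem o_2888_2889 : allTr oF to_2888_2889 = true := by decide +kernel

theorem ok_2470 : oF 0x10000000300020002000300033fff400040023fff211f1f1c = true := by decide +kernel

theorem o_1511_1513 : allTr oF to_1511_1513 = true := by decide +kernel

theorem ok_2820 : oF 0x100000000000a00020005000500023fff40004000400115151413 = true := by decide +kernel

theorem o_2401_2411 : allTr oF to_2401_2411 = true := by decide +kernel

theorem ok_2652 : oF 0x1000000040002000a000600063fff3fff4001400113121210 = true := by decide +kernel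

theorem ok_1327 : oF 0x8000200000004000a3ffe3fff4002400127252421 = true := by decide +kernel

theorem o_1583_1585 : allTr oF to_1583_1585 = true := by decide +kernel

theorem ok_2623 : oF 0x10000000400020003000500053ffe4001400040012120201e = true := by decide +kernel

theorem o_2308_2309 : allTr oF to_2308_2309 = true := by decide +kernel

theorem ok_2768 : oF 0x10001000600000001000000004001400040003fff29282828 = true := by decide +kernel

theorem ok_2878 : oF 0x100000001000b0001000200020000400040004000400027272626 = true := by decide +kernel

theorem ok_1829 : oF 0x1000b00000003000100004000400040013fff1a191818 = true := by decide +kernel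

theorem o_1729_1739 : allTr oF to_1729_1739 = true := by decide +kernel

theorem ok_1443 : oF 0x900010003000000063fff400040023fff25232220 = true := by decide +kernel

theorem o_2424_2426 : allTr oF to_2424_2426 = true := by decide +kernel

theorem o_1598_1600 : allTr oF to_1598_1600 = true := by decide +kernel

theorem ok_1171 : oF 0x700010003000500073fff40003ffe40032723221e = true := by decide +kernel

theorem ok_1542 : oF 0x900020008000700033ffe40013fff400208070604 = true := by decide +kernel

theorem ok_1751 : oF 0xb00000008000100044000400040023ffe17110f0a = true := by decide +kernel

theorem ok_2388 : oF 0x10000000200020002000100013ffd400240023fff1c191915 = true := by decide +kernel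

theorem ok_1684 : oF 0xa00010009000100063fff3ffd400340011f191711 = true := by decide +kernel

theorem ok_2179 : oF 0x10000000000020005000400043ffd4001400240001018181f = true := by decide +kernel

theorem o_1795_1797 : allTr oF to_1795_1797 = true := by decide +kernel

theorem o_1461_1463 : allTr oF to_1461_1463 = true := by decide +kernel

theorem ok_1808 : oF 0xb00020004000000043fff3fff3fff40031a16140f = true := by decide +kernel

theorem ok_23 : oF 0x700053ffd40033ffc400416150f0f = true := by decide +kernel

theorem o_1668_1669 : allTr oF to_1668_1669 = true := by decide +kernel

theorem ok_2064 : oF 0x10000000000010006000500053ffc40023fff4003140e0e08 = true := by decide +kernel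

end MPbbea99G.E4
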