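import Pool.Agent.Lib.Pbbea99G.E4.Data

/-!
# MP_bbea99_co: windows over the templates
-/

namespace MPbbea99G.E4

open MPbbea99S MPbbea99T MPbbea99G Finset

theorem o_998_1009 : allTr oF to_998_1009 = true := by decide +kernel

theorem o_882_904 : allTr oF to_882_904 = true := by decide +kernel

theorem o_1902_1924 : allTr oF to_1902_1924 = true := by decide +kernel

theorem o_871_881 : allTr oF to_871_881 = true := by decide +kernel

theorem o_2778_2780 : allTr oF to_2778_2780 = true := by decide +kernel

theorem o_2937_2939 : allTr oF to_2937_2939 = true := by decide +kernel

theorem o_1861_1863 : allTr oF to_1861_1863 = true := by decide +kernel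

theorem o_1427_1432 : allTr oF to_1427_1432 = true := by decide +kernel

theorem o_1433_1435 : allTr oF to_1433_1435 = true := by decide +kernel

theorem ok_2739 : oF 0x1000000050001000600020002400040003fff40010a090908 = true := by decide +kernel

theorem ok_1699 : oF 0xa0001000a0006000240003fff4000400124232221 = true := by decide +kernel

theorem o_2656_2657 : allTr oF to_2656_2657 = true := by decide +kernel

theorem o_2922_2923 : allTr oF to_2922_2923 = true := by decide +kernel

theorem ok_1579 : oF 0xa00000002000300014000400140003fff07050403 = true := by decide +kernel

theorem o_2905_2906 : allTr oF to_2905_2906 = true := by decide +kernel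

theorem ok_2915 : oF 0x100010000000500020002000200023fff40004000400118181817 = true := by decide +kernel

theorem ok_2918 : oF 0x100010000000500020002000200023fff4000400040011f1f1f1e = true := by decide +kernel

theorem o_2801_2802 : allTr oF to_2801_2802 = true := by decide +kernel

theorem o_1514_1515 : allTr oF to_1514_1515 = true := by decide +kernel

theorem ok_2379 : oF 0x10000000200020000000900093fff40013fff4001221f1f1b = true := by decide +kernel

theorem ok_2692 : oF 0x1000000050000000900020002400040013ffe40011a181817 = true := by decide +kernel

theorem ok_2923 : oF 0x100010000000500020002000200023fff4000400040012a2a2a29 = true := by decide +kernel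

theorem o_1224_1229 : allTr oF to_1224_1229 = true := by decide +kernel

theorem ok_2669 : oF 0x1000000050000000300020002400040013ffe4001211f1f1e = true := by decide +kernel

theorem ok_2698 : oF 0x1000000050000000a0002000240013fff3fff400113111110 = true := by decide +kernel

theorem ok_2671 : oF 0x10000000500000006000100013fff3fff4002400008060605 = true := by decide +kernel

theorem o_2699_2700 : allTr oF to_2699_2700 = true := by decide +kernel

theorem o_2685_2686 : allTr oF to_2685_2686 = true := by decide +kernel

theorem ok_2602 : oF 0x1000000040001000a0004000440003ffe400040020e0c0c0a = true := by decide +kernel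

theorem o_2642_2643 : allTr oF to_2642_2643 = true := by decide +kernel

theorem o_186_209 : allTr oF to_186_209 = true := by decide +kernel

theorem o_2636_2637 : allTr oF to_2636_2637 = true := by decide +kernel

theorem ok_2844 : oF 0x100000001000b000100010001000040004000400040000e0e0d0d = true := by decide +kernel

theorem ok_2950 : oF 0x1000100010006000100000000000040004000400040001a1a1a1a = true := by decide +kernel

theorem ok_1857 : oF 0x1000b0000000500020000400140003fff400024232222 = true := by decide +kernel

theorem o_1183_1185 : allTr oF to_1183_1185 = true := by decide +kernel

theorem ok_1675 : oF 0xa00010007000500033fff40023ffe400117110f09 = true := by decide +kernel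

theorem o_140_185 : allTr oF to_140_185 = true := by decide +kernel

theorem o_1554_1556 : allTr oF to_1554_1556 = true := by decide +kernel

theorem o_2291_2295 : allTr oF to_2291_2295 = true := by decide +kernel

theorem ok_2380 : oF 0x1000000020002000100010001400140023ffe3fff1b181814 = true := by decide +kernel

theorem ok_1629 : oF 0xa0000000b000500023fff40013ffe400202002a29 = true := by decide +kernel

theorem ok_870 : oF 0x300010000000600023ffe40013ffe40032018170f = true := by decide +kernel

theorem ok_2484 : oF 0x100000003000200040006000640003fff3ffe40030f0d0d0a = true := by decide +kernel

theorem ok_1148 : oF 0x70000000700030005400240013ffd40001712110d = true := by decide +kernel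

theorem o_1517_1519 : allTr oF to_1517_1519 = true := by decide +kernel

theorem ok_904 : oF 0x30002000b000b00013ffd40023ffe40030f1f1a29 = true := by decide +kernel

theorem ok_1722 : oF 0xa00020008000a000440003fff3ffd4004140f0d07 = true := by decide +kernel

theorem ok_974 : oF 0x500000001000200004001400140013ffd1912110b = true := by decide +kernel

theorem ok_1112 : oF 0x6000200040001000840003ffe40043ffe100c0b06 = true := by decide +kernel

theorem ok_2029 : oF 0x10000000000010003000700073ffb4002400340000b040428 = true := by decide +kernel

theorem ok_2225 : oF 0x1000000000002000a000000003fff3fff3fff40031f1a1a14 = true := by decide +kernel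

end MPbbea99G.E4
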