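import Pool.Agent.Lib.Pbbea99G.E4.Data

/-!
# MP_bbea99_co: windows over the templates
-/

namespace MPbbea99G.E4

open MPbbea99S MPbbea99T MPbbea99G Finset

theorem o_1010_1015 : allTr oF to_1010_1015 = true := by decide +kernel

theorem o_2100_2110 : allTr oF to_2100_2110 = true := by decide +kernel

theorem o_1209_1211 : allTr oF to_1209_1211 = true := by decide +kernel

theorem o_1879_1884 : allTr oF to_1879_1884 = true := by decide +kernel

theorem o_488_510 : allTr oF to_488_510 = true := by decide +kernel

theorem o_2856_2858 : allTr oF to_2856_2858 = true := by decide +kernel

theorem o_1824_1826 : allTr oF to_1824_1826 = true := by decide +kernel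

theorem o_1282_1284 : allTr oF to_1282_1284 = true := by decide +kernel

theorem ok_2706 : oF 0x10000000500010003000100013fff4000400140000f0e0e0d = true := by decide +kernel

theorem ok_1284 : oF 0x8000100000009000a3fff40003fff4002221f1e1b = true := by decide +kernel

theorem ok_2797 : oF 0x100000000000a00020003000300013fff4000400040011b1b1a19 = true := by decide +kernel

theorem ok_2719 : oF 0x10000000500010004000100013fff4000400140001c1b1b1a = true := by decide +kernel

theorem ok_1576 : oF 0xa000000010006000240013fff4000400024222120 = true := by decide +kernel

theorem ok_2658 : oF 0x10000000500000000000100013fff400140013fff1b191918 = true := by decide +kernel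

theorem o_1352_1353 : allTr oF to_1352_1353 = true := by decide +kernel

theorem ok_2831 : oF 0x100000000000a00020006000600023fff40004000400117171615 = true := by decide +kernel

theorem o_1818_1820 : allTr oF to_1818_1820 = true := by decide +kernel

theorem o_2914_2915 : allTr oF to_2914_2915 = true := by decide +kernel

theorem o_2885_2886 : allTr oF to_2885_2886 = true := by decide +kernel

theorem ok_2701 : oF 0x1000000050000000a0002000240013fff3fff400124222221 = true := by decide +kernel

theorem o_2340_2341 : allTr oF to_2340_2341 = true := by decide +kernel

theorem o_987_992 : allTr oF to_987_992 = true := by decide +kernel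

theorem ok_2687 : oF 0x10000000500000008000100013fff3fff400240001d1b1b1a = true := by decide +kernel

theorem o_1984_1994 : allTr oF to_1984_1994 = true := by decide +kernel

theorem ok_2635 : oF 0x10000000400020007000300033fff40013fff40012a292927 = true := by decide +kernel

theorem o_2676_2677 : allTr oF to_2676_2677 = true := by decide +kernel

theorem o_2018_2029 : allTr oF to_2018_2029 = true := by decide +kernel

theorem o_1948_1959 : allTr oF to_1948_1959 = true := by decide +kernel

theorem ok_2035 : oF 0x100000000000100040004000440013ffe400140002620201a = true := by decide +kernel

theorem o_2352_2353 : allTr oF to_2352_2353 = true := by decide +kernel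

theorem ok_2638 : oF 0x10000000400020008000400043fff3fff400040020a090907 = true := by decide +kernel

theorem o_1276_1281 : allTr oF to_1276_1281 = true := by decide +kernel

theorem ok_2855 : oF 0x100000001000b0001000100010000400040004000400026262525 = true := by decide +kernel

theorem ok_2962 : oF 0x10001000100060001000000000000400040004000400026262626 = true := by decide +kernel

theorem ok_1866 : oF 0x1000b0000000600020000400140003fff40001d1c1b1b = true := by decide +kernel

theorem ok_2585 : oF 0x10000000400010004000600063fff3ffe4001400225232321 = true := by decide +kernel

theorem o_1033_1043 : allTr oF to_1033_1043 = true := by decide +kernel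

theorem ok_695 : oF 0x20006000100044000400040023ffe11161014 = true := by decide +kernel

theorem o_1786_1791 : allTr oF to_1786_1791 = true := by decide +kernel

theorem ok_1612 : oF 0xa00000008000300013ffe40024000400008060504 = true := by decide +kernel

theorem o_1044_1046 : allTr oF to_1044_1046 = true := by decide +kernel

theorem ok_1449 : oF 0x900010004000000063fff400040023fff1412110f = true := by decide +kernel

theorem ok_1386 : oF 0x900000000000a00063fff3ffd400240021c191816 = true := by decide +kernel

theorem ok_2339 : oF 0x100000002000000060000000040013fff3ffe40022621211d = true := by decide +kernel

theorem ok_1281 : oF 0x80001000000050002400040033ffc400111160e13 = true := by decide +kernel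

theorem ok_2522 : oF 0x10000000400000002000600063fff3ffe400040030d0a0a08 = true := by decide +kernel

theorem ok_1965 : oF 0x1000000000000000a000500053ffd40013fff4003150e0e08 = true := by decide +kernel

theorem ok_1368 : oF 0x80002000a000700013ffd40023ffe400310201a29 = true := by decide +kernel

theorem ok_46 : oF 0x10002000b3ffd400240023fff15190f14 = true := by decide +kernel

theorem ok_1603 : oF 0xa00000007000100063ffd4000400140020024221c = true := by decide +kernel

theorem ok_2110 : oF 0x10000000000020000000100013ffd400340033ffd0f121214 = true := by decide +kernel

end MPbbea99G.E4
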