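import Pool.Agent.Lib.Pbbea99G.E4.Data

/-!
# MP_bbea99_co: windows over the templates
-/

namespace MPbbea99G.E4

open MPbbea99S MPbbea99T MPbbea99G Finset

theorem o_2592_2596 : allTr oF to_2592_2596 = true := by decide +kernel

theorem o_1740_1751 : allTr oF to_1740_1751 = true := by decide +kernel

theorem o_2134_2145 : allTr oF to_2134_2145 = true := by decide +kernel

theorem o_93_139 : allTr oF to_93_139 = true := by decide +kernel

theorem o_2772_2774 : allTr oF to_2772_2774 = true := by decide +kernel

theorem o_2925_2927 : allTr oF to_2925_2927 = true := by decide +kernel

theorem o_1847_1849 : allTr oF to_1847_1849 = true := by decide +kernel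

theorem o_1358_1368 : allTr oF to_1358_1368 = true := by decide +kernel

theorem o_2732_2733 : allTr oF to_2732_2733 = true := by decide +kernel

theorem ok_2745 : oF 0x1000000050001000600020002400040003fff400122212120 = true := by decide +kernel

theorem ok_1177 : oF 0x700010004000a000b3fff3fff40004002231f1e1a = true := by decide +kernel

theorem o_2723_2724 : allTr oF to_2723_2724 = true := by decide +kernel

theorem ok_1672 : oF 0xa00010007000300013fff4001400040001c1b1a19 = true := by decide +kernel

theorem ok_2832 : oF 0x100000000000a00020006000600023fff40004000400118181716 = true := by decide +kernel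

theorem o_2908_2909 : allTr oF to_2908_2909 = true := by decide +kernel

theorem o_2203_2208 : allTr oF to_2203_2208 = true := by decide +kernel

theorem ok_2700 : oF 0x1000000050000000a0002000240013fff3fff40011e1c1c1b = true := by decide +kernel

theorem o_1172_1177 : allTr oF to_1172_1177 = true := by decide +kernel

theorem o_2250_2255 : allTr oF to_2250_2255 = true := by decide +kernel

theorem ok_1264 : oF 0x8000000050004000a40003fff400140001e1a1916 = true := by decide +kernel

theorem o_1549_1553 : allTr oF to_1549_1553 = true := by decide +kernel

theorem o_1557_1559 : allTr oF to_1557_1559 = true := by decide +kernel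

theorem o_1566_1568 : allTr oF to_1566_1568 = true := by decide +kernel

theorem o_2491_2492 : allTr oF to_2491_2492 = true := by decide +kernel

theorem ok_1498 : oF 0x9000200000006000440003fff3fff400209080705 = true := by decide +kernel

theorem o_2378_2379 : allTr oF to_2378_2379 = true := by decide +kernel

theorem ok_2578 : oF 0x1000000040001000200030003400040013fff400027252523 = true := by decide +kernel

theorem ok_1649 : oF 0xa00010003000500023fff40013fff40010c0b0a09 = true := by decide +kernel

theorem o_1627_1629 : allTr oF to_1627_1629 = true := by decide +kernel

theorem o_1178_1182 : allTr oF to_1178_1182 = true := by decide +kernel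

theorem ok_1298 : oF 0x80001000200050007400040013ffe40011411100d = true := by decide +kernel

theorem o_2851_2852 : allTr oF to_2851_2852 = true := by decide +kernel

theorem ok_2762 : oF 0x10001000600000001000000004001400040003fff1e1d1d1d = true := by decide +kernel

theorem ok_2852 : oF 0x100000001000b0001000100010000400040004000400020201f1f = true := by decide +kernel

theorem o_1853_1854 : allTr oF to_1853_1854 = true := by decide +kernel

theorem o_1056_1066 : allTr oF to_1056_1066 = true := by decide +kernel

theorem o_2551_2562 : allTr oF to_2551_2562 = true := by decide +kernel

theorem ok_1043 : oF 0x50002000b0007000b3ffd40014001400125201f19 = true := by decide +kernel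

theorem o_2485_2487 : allTr oF to_2485_2487 = true := by decide +kernel

theorem ok_1559 : oF 0x90002000b000800043ffe4000400040021e1d1c1a = true := by decide +kernel

theorem ok_1296 : oF 0x8000100020002000940013ffe40014000120f0e0b = true := by decide +kernel

theorem ok_2591 : oF 0x10000000400010007000500053ffe4002400040000a080806 = true := by decide +kernel

theorem ok_1872 : oF 0x10000000000000000000200023fff40013ffd40032017170f = true := by decide +kernel

theorem ok_1235 : oF 0x70002000a000a000b40013ffe3ffe40030f0c0b07 = true := by decide +kernel

theorem ok_185 : oF 0xb0001000640033ffd3ffe400210191721 = true := by decide +kernel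

theorem ok_139 : oF 0x6000300083ffe400340023ffd11131114 = true := by decide +kernel

theorem o_1659_1661 : allTr oF to_1659_1661 = true := by decide +kernel

theorem ok_1661 : oF 0xa000100050005000b3ffc40014001400227211f19 = true := by decide +kernel

theorem ok_864 : oF 0x300000007000b00083ffb4002400340000f060528 = true := by decide +kernel

theorem ok_684 : oF 0x20005000600013ffd40023ffe400315191013 = true := by decide +kernel

theorem ok_1878 : oF 0x100000000000000010002000240013ffe40023fff11181820 = true := by decide +kernel

theorem ok_2284 : oF 0x10000000100010005000700073ffe40043fff3fff0a050500 = true := by decide +kernel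

end MPbbea99G.E4
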