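import Pool.Agent.Lib.Pbbea99G.E4.Hyp
import Pool.Agent.Lib.Pbbea99G.E4.Out
import Pool.Agent.Lib.Pbbea99G.E4.C00
import Pool.Agent.Lib.Pbbea99G.E4.O00
import Pool.Agent.Lib.Pbbea99G.E4.O01
import Pool.Agent.Lib.Pbbea99G.E4.O02
import Pool.Agent.Lib.Pbbea99G.E4.O03
import Pool.Agent.Lib.Pbbea99G.E4.O04
import Pool.Agent.Lib.Pbbea99G.E4.O05
import Pool.Agent.Lib.Pbbea99G.E4.O06
import Pool.Agent.Lib.Pbbea99G.E4.O07
import Pool.Agent.Lib.Pbbea99G.E4.O08
import Pool.Agent.Lib.Pbbea99G.E4.O09
import Pool.Agent.Lib.Pbbea99G.E4.O10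
import Pool.Agent.Lib.Pbbea99G.E4.O11
import Pool.Agent.Lib.Pbbea99G.E4.O12
import Pool.Agent.Lib.Pbbea99G.E4.O13
import Pool.Agent.Lib.Pbbea99G.E4.O14
import Pool.Agent.Lib.Pbbea99G.E4.O15
import Pool.Agent.Lib.Pbbea99G.E4.O16
import Pool.Agent.Lib.Pbbea99G.E4.O17
import Pool.Agent.Lib.Pbbea99G.E4.O18
import Pool.Agent.Lib.Pbbea99G.E4.O19

/-!
# MP_bbea99_co: the word on 4 letters
-/

namespace MPbbea99G.E4

open MPbbea99S MPbbea99T MPbbea99G Finset

theorem c_2116_2119 : allTr (chkV P V lk) tr_2116_2119 = true := allTr_mk ck_2117 c_2116_2117 c_2118_2119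

theorem c_2128_2131 : allTr (chkV P V lk) tr_2128_2131 = true := allTr_mk ck_2129 c_2128_2129 c_2130_2131

theorem c_2116_2123 : allTr (chkV P V lk) tr_2116_2123 = true := allTr_mk ck_2119 c_2116_2119 c_2120_2123

theorem c_2124_2131 : allTr (chkV P V lk) tr_2124_2131 = true := allTr_mk ck_2127 c_2124_2127 c_2128_2131

theorem c_2116_2131 : allTr (chkV P V lk) tr_2116_2131 = true := allTr_mk ck_2123 c_2116_2123 c_2124_2131

theorem c_2099_2131 : allTr (chkV P V lk) tr_2099_2131 = true := allTr_mk ck_2115 c_2099_2115 c_2116_2131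

theorem c_2066_2131 : allTr (chkV P V lk) tr_2066_2131 = true := allTr_mk ck_2098 c_2066_2098 c_2099_2131

theorem c_1333_1399 : allTr (chkV P V lk) tr_1333_1399 = true := allTr_mk ck_1366 c_1333_1366 c_1367_1399

theorem c_933_1065 : allTr (chkV P V lk) tr_933_1065 = true := allTr_mk ck_999 c_933_999 c_1000_1065

theorem c_1333_1465 : allTr (chkV P V lk) tr_1333_1465 = true := allTr_mk ck_1399 c_1333_1399 c_1400_1465

theorem c_1466_1598 : allTr (chkV P V lk) tr_1466_1598 = true := allTr_mk ck_1532 c_1466_1532 c_1533_1598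

theorem c_1866_1998 : allTr (chkV P V lk) tr_1866_1998 = true := allTr_mk ck_1932 c_1866_1932 c_1933_1998

theorem c_1999_2131 : allTr (chkV P V lk) tr_1999_2131 = true := allTr_mk ck_2065 c_1999_2065 c_2066_2131

theorem c_1066_1199 : allTr (chkV P V lk) tr_1066_1199 = true := allTr_mk ck_1132 c_1066_1132 c_1133_1199

theorem c_1599_1732 : allTr (chkV P V lk) tr_1599_1732 = true := allTr_mk ck_1665 c_1599_1665 c_1666_1732

theorem c_800_1065 : allTr (chkV P V lk) tr_800_1065 = true := allTr_mk ck_932 c_800_932 c_933_1065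

theorem c_1333_1598 : allTr (chkV P V lk) tr_1333_1598 = true := allTr_mk ck_1465 c_1333_1465 c_1466_1598

theorem c_1866_2131 : allTr (chkV P V lk) tr_1866_2131 = true := allTr_mk ck_1998 c_1866_1998 c_1999_2131

theorem c_1066_1332 : allTr (chkV P V lk) tr_1066_1332 = true := allTr_mk ck_1199 c_1066_1199 c_1200_1332

theorem c_1599_1865 : allTr (chkV P V lk) tr_1599_1865 = true := allTr_mk ck_1732 c_1599_1732 c_1733_1865

theorem c_0_532 : allTr (chkV P V lk) tr_0_532 = true := allTr_mk ck_266 c_0_266 c_267_532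

theorem c_533_1065 : allTr (chkV P V lk) tr_533_1065 = true := allTr_mk ck_799 c_533_799 c_800_1065

theorem c_1066_1598 : allTr (chkV P V lk) tr_1066_1598 = true := allTr_mk ck_1332 c_1066_1332 c_1333_1598

theorem c_1599_2131 : allTr (chkV P V lk) tr_1599_2131 = true := allTr_mk ck_1865 c_1599_1865 c_1866_2131

theorem c_0_1065 : allTr (chkV P V lk) tr_0_1065 = true := allTr_mk ck_532 c_0_532 c_533_1065

theorem c_1066_2131 : allTr (chkV P V lk) tr_1066_2131 = true := allTr_mk ck_1598 c_1066_1598 c_1599_2131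

theorem c_0_2131 : allTr (chkV P V lk) tr_0_2131 = true := allTr_mk ck_1065 c_0_1065 c_1066_2131

theorem o_1119_1121 : allTr oF to_1119_1121 = true := allTr_mk ok_1120 o_1119_1120 rfl

theorem o_1326_1328 : allTr oF to_1326_1328 = true := allTr_mk ok_1327 o_1326_1327 rfl

theorem o_1352_1354 : allTr oF to_1352_1354 = true := allTr_mk ok_1353 o_1352_1353 rfl

theorem o_1447_1449 : allTr oF to_1447_1449 = true := allTr_mk ok_1448 o_1447_1448 rfl

theorem o_1464_1466 : allTr oF to_1464_1466 = true := allTr_mk ok_1465 o_1464_1465 rfl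

theorem o_1496_1498 : allTr oF to_1496_1498 = true := allTr_mk ok_1497 o_1496_1497 rfl

theorem o_1502_1504 : allTr oF to_1502_1504 = true := allTr_mk ok_1503 o_1502_1503 rfl

theorem o_1505_1507 : allTr oF to_1505_1507 = true := allTr_mk ok_1506 o_1505_1506 rfl

theorem o_1514_1516 : allTr oF to_1514_1516 = true := allTr_mk ok_1515 o_1514_1515 rfl

theorem o_1563_1565 : allTr oF to_1563_1565 = true := allTr_mk ok_1564 o_1563_1564 rfl

theorem o_1580_1582 : allTr oF to_1580_1582 = true := allTr_mk ok_1581 o_1580_1581 rfl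

theorem o_1633_1635 : allTr oF to_1633_1635 = true := allTr_mk ok_1634 o_1633_1634 rfl

theorem o_1647_1649 : allTr oF to_1647_1649 = true := allTr_mk ok_1648 o_1647_1648 rfl

theorem o_1650_1652 : allTr oF to_1650_1652 = true := allTr_mk ok_1651 o_1650_1651 rfl

theorem o_1662_1664 : allTr oF to_1662_1664 = true := allTr_mk ok_1663 o_1662_1663 rfl

theorem o_1665_1667 : allTr oF to_1665_1667 = true := allTr_mk ok_1666 o_1665_1666 rfl

theorem o_1670_1672 : allTr oF to_1670_1672 = true := allTr_mk ok_1671 o_1670_1671 rfl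

theorem o_1673_1675 : allTr oF to_1673_1675 = true := allTr_mk ok_1674 o_1673_1674 rfl

theorem o_1676_1678 : allTr oF to_1676_1678 = true := allTr_mk ok_1677 o_1676_1677 rfl

theorem o_1679_1681 : allTr oF to_1679_1681 = true := allTr_mk ok_1680 o_1679_1680 rfl

theorem o_1685_1687 : allTr oF to_1685_1687 = true := allTr_mk ok_1686 o_1685_1686 rfl

theorem o_1688_1690 : allTr oF to_1688_1690 = true := allTr_mk ok_1689 o_1688_1689 rfl

theorem o_1694_1696 : allTr oF to_1694_1696 = true := allTr_mk ok_1695 o_1694_1695 rfl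

theorem o_1697_1699 : allTr oF to_1697_1699 = true := allTr_mk ok_1698 o_1697_1698 rfl

theorem o_1792_1794 : allTr oF to_1792_1794 = true := allTr_mk ok_1793 o_1792_1793 rfl

theorem o_2279_2281 : allTr oF to_2279_2281 = true := allTr_mk ok_2280 o_2279_2280 rfl

theorem o_2308_2310 : allTr oF to_2308_2310 = true := allTr_mk ok_2309 o_2308_2309 rfl

theorem o_2340_2342 : allTr oF to_2340_2342 = true := allTr_mk ok_2341 o_2340_2341 rfl

theorem o_2352_2354 : allTr oF to_2352_2354 = true := allTr_mk ok_2353 o_2352_2353 rfl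

theorem o_2378_2380 : allTr oF to_2378_2380 = true := allTr_mk ok_2379 o_2378_2379 rfl

theorem o_2454_2456 : allTr oF to_2454_2456 = true := allTr_mk ok_2455 o_2454_2455 rfl

theorem o_2491_2493 : allTr oF to_2491_2493 = true := allTr_mk ok_2492 o_2491_2492 rfl

theorem o_2520_2522 : allTr oF to_2520_2522 = true := allTr_mk ok_2521 o_2520_2521 rfl

theorem o_2563_2565 : allTr oF to_2563_2565 = true := allTr_mk ok_2564 o_2563_2564 rfl

theorem o_2566_2568 : allTr oF to_2566_2568 = true := allTr_mk ok_2567 o_2566_2567 rfl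

theorem o_2574_2576 : allTr oF to_2574_2576 = true := allTr_mk ok_2575 o_2574_2575 rfl

theorem o_2577_2579 : allTr oF to_2577_2579 = true := allTr_mk ok_2578 o_2577_2578 rfl

theorem o_2612_2614 : allTr oF to_2612_2614 = true := allTr_mk ok_2613 o_2612_2613 rfl

theorem o_2615_2617 : allTr oF to_2615_2617 = true := allTr_mk ok_2616 o_2615_2616 rfl

theorem o_2624_2626 : allTr oF to_2624_2626 = true := allTr_mk ok_2625 o_2624_2625 rfl

theorem o_2630_2632 : allTr oF to_2630_2632 = true := allTr_mk ok_2631 o_2630_2631 rfl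

theorem o_2633_2635 : allTr oF to_2633_2635 = true := allTr_mk ok_2634 o_2633_2634 rfl

theorem o_2636_2638 : allTr oF to_2636_2638 = true := allTr_mk ok_2637 o_2636_2637 rfl

theorem o_2650_2652 : allTr oF to_2650_2652 = true := allTr_mk ok_2651 o_2650_2651 rfl

theorem o_2653_2655 : allTr oF to_2653_2655 = true := allTr_mk ok_2654 o_2653_2654 rfl

theorem o_2656_2658 : allTr oF to_2656_2658 = true := allTr_mk ok_2657 o_2656_2657 rfl

theorem o_2659_2661 : allTr oF to_2659_2661 = true := allTr_mk ok_2660 o_2659_2660 rfl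

theorem o_2662_2664 : allTr oF to_2662_2664 = true := allTr_mk ok_2663 o_2662_2663 rfl

theorem o_2667_2669 : allTr oF to_2667_2669 = true := allTr_mk ok_2668 o_2667_2668 rfl

theorem o_2670_2672 : allTr oF to_2670_2672 = true := allTr_mk ok_2671 o_2670_2671 rfl

theorem o_2673_2675 : allTr oF to_2673_2675 = true := allTr_mk ok_2674 o_2673_2674 rfl

theorem o_2676_2678 : allTr oF to_2676_2678 = true := allTr_mk ok_2677 o_2676_2677 rfl

theorem o_2682_2684 : allTr oF to_2682_2684 = true := allTr_mk ok_2683 o_2682_2683 rfl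

theorem o_2685_2687 : allTr oF to_2685_2687 = true := allTr_mk ok_2686 o_2685_2686 rfl

theorem o_2690_2692 : allTr oF to_2690_2692 = true := allTr_mk ok_2691 o_2690_2691 rfl

theorem o_2696_2698 : allTr oF to_2696_2698 = true := allTr_mk ok_2697 o_2696_2697 rfl

theorem o_2699_2701 : allTr oF to_2699_2701 = true := allTr_mk ok_2700 o_2699_2700 rfl

theorem o_2702_2704 : allTr oF to_2702_2704 = true := allTr_mk ok_2703 o_2702_2703 rfl

theorem o_2705_2707 : allTr oF to_2705_2707 = true := allTr_mk ok_2706 o_2705_2706 rfl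

theorem o_2708_2710 : allTr oF to_2708_2710 = true := allTr_mk ok_2709 o_2708_2709 rfl

theorem o_2711_2713 : allTr oF to_2711_2713 = true := allTr_mk ok_2712 o_2711_2712 rfl

theorem o_2714_2716 : allTr oF to_2714_2716 = true := allTr_mk ok_2715 o_2714_2715 rfl

theorem o_2717_2719 : allTr oF to_2717_2719 = true := allTr_mk ok_2718 o_2717_2718 rfl

theorem o_2720_2722 : allTr oF to_2720_2722 = true := allTr_mk ok_2721 o_2720_2721 rfl

theorem o_2723_2725 : allTr oF to_2723_2725 = true := allTr_mk ok_2724 o_2723_2724 rfl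

theorem o_2726_2728 : allTr oF to_2726_2728 = true := allTr_mk ok_2727 o_2726_2727 rfl

theorem o_2729_2731 : allTr oF to_2729_2731 = true := allTr_mk ok_2730 o_2729_2730 rfl

theorem o_2732_2734 : allTr oF to_2732_2734 = true := allTr_mk ok_2733 o_2732_2733 rfl

theorem o_2737_2739 : allTr oF to_2737_2739 = true := allTr_mk ok_2738 o_2737_2738 rfl

theorem o_2740_2742 : allTr oF to_2740_2742 = true := allTr_mk ok_2741 o_2740_2741 rfl

theorem o_2743_2745 : allTr oF to_2743_2745 = true := allTr_mk ok_2744 o_2743_2744 rfl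

theorem o_2746_2748 : allTr oF to_2746_2748 = true := allTr_mk ok_2747 o_2746_2747 rfl

theorem o_2792_2794 : allTr oF to_2792_2794 = true := allTr_mk ok_2793 o_2792_2793 rfl

theorem o_2795_2797 : allTr oF to_2795_2797 = true := allTr_mk ok_2796 o_2795_2796 rfl

theorem o_2798_2800 : allTr oF to_2798_2800 = true := allTr_mk ok_2799 o_2798_2799 rfl

theorem o_2801_2803 : allTr oF to_2801_2803 = true := allTr_mk ok_2802 o_2801_2802 rfl

theorem o_2804_2806 : allTr oF to_2804_2806 = true := allTr_mk ok_2805 o_2804_2805 rfl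

theorem o_2807_2809 : allTr oF to_2807_2809 = true := allTr_mk ok_2808 o_2807_2808 rfl

theorem o_2810_2812 : allTr oF to_2810_2812 = true := allTr_mk ok_2811 o_2810_2811 rfl

theorem o_2813_2815 : allTr oF to_2813_2815 = true := allTr_mk ok_2814 o_2813_2814 rfl

theorem o_2816_2818 : allTr oF to_2816_2818 = true := allTr_mk ok_2817 o_2816_2817 rfl

theorem o_2819_2821 : allTr oF to_2819_2821 = true := allTr_mk ok_2820 o_2819_2820 rfl

theorem o_2822_2824 : allTr oF to_2822_2824 = true := allTr_mk ok_2823 o_2822_2823 rfl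

theorem o_2825_2827 : allTr oF to_2825_2827 = true := allTr_mk ok_2826 o_2825_2826 rfl

theorem o_2830_2832 : allTr oF to_2830_2832 = true := allTr_mk ok_2831 o_2830_2831 rfl

theorem o_2833_2835 : allTr oF to_2833_2835 = true := allTr_mk ok_2834 o_2833_2834 rfl

theorem o_2879_2881 : allTr oF to_2879_2881 = true := allTr_mk ok_2880 o_2879_2880 rfl

theorem o_2882_2884 : allTr oF to_2882_2884 = true := allTr_mk ok_2883 o_2882_2883 rfl

theorem o_2885_2887 : allTr oF to_2885_2887 = true := allTr_mk ok_2886 o_2885_2886 rfl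

theorem o_2888_2890 : allTr oF to_2888_2890 = true := allTr_mk ok_2889 o_2888_2889 rfl

theorem o_2891_2893 : allTr oF to_2891_2893 = true := allTr_mk ok_2892 o_2891_2892 rfl

theorem o_2894_2896 : allTr oF to_2894_2896 = true := allTr_mk ok_2895 o_2894_2895 rfl

theorem o_2899_2901 : allTr oF to_2899_2901 = true := allTr_mk ok_2900 o_2899_2900 rfl

theorem o_2902_2904 : allTr oF to_2902_2904 = true := allTr_mk ok_2903 o_2902_2903 rfl

theorem o_2905_2907 : allTr oF to_2905_2907 = true := allTr_mk ok_2906 o_2905_2906 rfl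

theorem o_2908_2910 : allTr oF to_2908_2910 = true := allTr_mk ok_2909 o_2908_2909 rfl

theorem o_2911_2913 : allTr oF to_2911_2913 = true := allTr_mk ok_2912 o_2911_2912 rfl

theorem o_2914_2916 : allTr oF to_2914_2916 = true := allTr_mk ok_2915 o_2914_2915 rfl

theorem o_2917_2919 : allTr oF to_2917_2919 = true := allTr_mk ok_2918 o_2917_2918 rfl

theorem o_2922_2924 : allTr oF to_2922_2924 = true := allTr_mk ok_2923 o_2922_2923 rfl

theorem o_1294_1298 : allTr oF to_1294_1298 = true := allTr_mk ok_1296 o_1294_1296 o_1297_1298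

theorem o_1433_1437 : allTr oF to_1433_1437 = true := allTr_mk ok_1435 o_1433_1435 o_1436_1437

theorem o_1526_1530 : allTr oF to_1526_1530 = true := allTr_mk ok_1528 o_1526_1528 o_1529_1530

theorem o_1572_1576 : allTr oF to_1572_1576 = true := allTr_mk ok_1574 o_1572_1574 o_1575_1576

theorem o_1665_1669 : allTr oF to_1665_1669 = true := allTr_mk ok_1667 o_1665_1667 o_1668_1669

theorem o_1827_1831 : allTr oF to_1827_1831 = true := allTr_mk ok_1829 o_1827_1829 o_1830_1831

theorem o_1850_1854 : allTr oF to_1850_1854 = true := allTr_mk ok_1852 o_1850_1852 o_1853_1854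

theorem o_1943_1947 : allTr oF to_1943_1947 = true := allTr_mk ok_1945 o_1943_1945 o_1946_1947

theorem o_2454_2458 : allTr oF to_2454_2458 = true := allTr_mk ok_2456 o_2454_2456 o_2457_2458

theorem o_2569_2573 : allTr oF to_2569_2573 = true := allTr_mk ok_2571 o_2569_2571 o_2572_2573

theorem o_2639_2643 : allTr oF to_2639_2643 = true := allTr_mk ok_2641 o_2639_2641 o_2642_2643

theorem o_2662_2666 : allTr oF to_2662_2666 = true := allTr_mk ok_2664 o_2662_2664 o_2665_2666

theorem o_2685_2689 : allTr oF to_2685_2689 = true := allTr_mk ok_2687 o_2685_2687 o_2688_2689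

theorem o_2732_2736 : allTr oF to_2732_2736 = true := allTr_mk ok_2734 o_2732_2734 o_2735_2736

theorem o_2755_2759 : allTr oF to_2755_2759 = true := allTr_mk ok_2757 o_2755_2757 o_2758_2759

theorem o_2778_2782 : allTr oF to_2778_2782 = true := allTr_mk ok_2780 o_2778_2780 o_2781_2782

theorem o_2825_2829 : allTr oF to_2825_2829 = true := allTr_mk ok_2827 o_2825_2827 o_2828_2829

theorem o_2848_2852 : allTr oF to_2848_2852 = true := allTr_mk ok_2850 o_2848_2850 o_2851_2852

theorem o_2871_2875 : allTr oF to_2871_2875 = true := allTr_mk ok_2873 o_2871_2873 o_2874_2875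

theorem o_2894_2898 : allTr oF to_2894_2898 = true := allTr_mk ok_2896 o_2894_2896 o_2897_2898

theorem o_2917_2921 : allTr oF to_2917_2921 = true := allTr_mk ok_2919 o_2917_2919 o_2920_2921

theorem o_2940_2944 : allTr oF to_2940_2944 = true := allTr_mk ok_2942 o_2940_2942 o_2943_2944

theorem o_2963_2967 : allTr oF to_2963_2967 = true := allTr_mk ok_2965 o_2963_2965 o_2966_2967

theorem o_1044_1049 : allTr oF to_1044_1049 = true := allTr_mk ok_1046 o_1044_1046 o_1047_1049

theorem o_1119_1124 : allTr oF to_1119_1124 = true := allTr_mk ok_1121 o_1119_1121 o_1122_1124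

theorem o_1137_1142 : allTr oF to_1137_1142 = true := allTr_mk ok_1139 o_1137_1139 o_1140_1142

theorem o_1183_1188 : allTr oF to_1183_1188 = true := allTr_mk ok_1185 o_1183_1185 o_1186_1188

theorem o_1206_1211 : allTr oF to_1206_1211 = true := allTr_mk ok_1208 o_1206_1208 o_1209_1211

theorem o_1282_1287 : allTr oF to_1282_1287 = true := allTr_mk ok_1284 o_1282_1284 o_1285_1287

theorem o_1323_1328 : allTr oF to_1323_1328 = true := allTr_mk ok_1325 o_1323_1325 o_1326_1328

theorem o_1352_1357 : allTr oF to_1352_1357 = true := allTr_mk ok_1354 o_1352_1354 o_1355_1357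

theorem o_1381_1386 : allTr oF to_1381_1386 = true := allTr_mk ok_1383 o_1381_1383 o_1384_1386

theorem o_1404_1409 : allTr oF to_1404_1409 = true := allTr_mk ok_1406 o_1404_1406 o_1407_1409

theorem o_1444_1449 : allTr oF to_1444_1449 = true := allTr_mk ok_1446 o_1444_1446 o_1447_1449

theorem o_1461_1466 : allTr oF to_1461_1466 = true := allTr_mk ok_1463 o_1461_1463 o_1464_1466

theorem o_1496_1501 : allTr oF to_1496_1501 = true := allTr_mk ok_1498 o_1496_1498 o_1499_1501

theorem o_1502_1507 : allTr oF to_1502_1507 = true := allTr_mk ok_1504 o_1502_1504 o_1505_1507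

theorem o_1508_1513 : allTr oF to_1508_1513 = true := allTr_mk ok_1510 o_1508_1510 o_1511_1513

theorem o_1514_1519 : allTr oF to_1514_1519 = true := allTr_mk ok_1516 o_1514_1516 o_1517_1519

theorem o_1531_1536 : allTr oF to_1531_1536 = true := allTr_mk ok_1533 o_1531_1533 o_1534_1536

theorem o_1554_1559 : allTr oF to_1554_1559 = true := allTr_mk ok_1556 o_1554_1556 o_1557_1559

theorem o_1560_1565 : allTr oF to_1560_1565 = true := allTr_mk ok_1562 o_1560_1562 o_1563_1565

theorem o_1566_1571 : allTr oF to_1566_1571 = true := allTr_mk ok_1568 o_1566_1568 o_1569_1571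

theorem o_1577_1582 : allTr oF to_1577_1582 = true := allTr_mk ok_1579 o_1577_1579 o_1580_1582

theorem o_1583_1588 : allTr oF to_1583_1588 = true := allTr_mk ok_1585 o_1583_1585 o_1586_1588

theorem o_1595_1600 : allTr oF to_1595_1600 = true := allTr_mk ok_1597 o_1595_1597 o_1598_1600

theorem o_1601_1606 : allTr oF to_1601_1606 = true := allTr_mk ok_1603 o_1601_1603 o_1604_1606

theorem o_1607_1612 : allTr oF to_1607_1612 = true := allTr_mk ok_1609 o_1607_1609 o_1610_1612

theorem o_1624_1629 : allTr oF to_1624_1629 = true := allTr_mk ok_1626 o_1624_1626 o_1627_1629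

theorem o_1630_1635 : allTr oF to_1630_1635 = true := allTr_mk ok_1632 o_1630_1632 o_1633_1635

theorem o_1636_1641 : allTr oF to_1636_1641 = true := allTr_mk ok_1638 o_1636_1638 o_1639_1641

theorem o_1647_1652 : allTr oF to_1647_1652 = true := allTr_mk ok_1649 o_1647_1649 o_1650_1652

theorem o_1653_1658 : allTr oF to_1653_1658 = true := allTr_mk ok_1655 o_1653_1655 o_1656_1658

theorem o_1659_1664 : allTr oF to_1659_1664 = true := allTr_mk ok_1661 o_1659_1661 o_1662_1664

theorem o_1670_1675 : allTr oF to_1670_1675 = true := allTr_mk ok_1672 o_1670_1672 o_1673_1675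

theorem o_1676_1681 : allTr oF to_1676_1681 = true := allTr_mk ok_1678 o_1676_1678 o_1679_1681

theorem o_1682_1687 : allTr oF to_1682_1687 = true := allTr_mk ok_1684 o_1682_1684 o_1685_1687

theorem o_1688_1693 : allTr oF to_1688_1693 = true := allTr_mk ok_1690 o_1688_1690 o_1691_1693

theorem o_1694_1699 : allTr oF to_1694_1699 = true := allTr_mk ok_1696 o_1694_1696 o_1697_1699

theorem o_1769_1774 : allTr oF to_1769_1774 = true := allTr_mk ok_1771 o_1769_1771 o_1772_1774

theorem o_1792_1797 : allTr oF to_1792_1797 = true := allTr_mk ok_1794 o_1792_1794 o_1795_1797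

theorem o_1815_1820 : allTr oF to_1815_1820 = true := allTr_mk ok_1817 o_1815_1817 o_1818_1820

theorem o_1821_1826 : allTr oF to_1821_1826 = true := allTr_mk ok_1823 o_1821_1823 o_1824_1826

theorem o_1832_1837 : allTr oF to_1832_1837 = true := allTr_mk ok_1834 o_1832_1834 o_1835_1837

theorem o_1838_1843 : allTr oF to_1838_1843 = true := allTr_mk ok_1840 o_1838_1840 o_1841_1843

theorem o_1844_1849 : allTr oF to_1844_1849 = true := allTr_mk ok_1846 o_1844_1846 o_1847_1849

theorem o_1855_1860 : allTr oF to_1855_1860 = true := allTr_mk ok_1857 o_1855_1857 o_1858_1860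

theorem o_1861_1866 : allTr oF to_1861_1866 = true := allTr_mk ok_1863 o_1861_1863 o_1864_1866

theorem o_2279_2284 : allTr oF to_2279_2284 = true := allTr_mk ok_2281 o_2279_2281 o_2282_2284

theorem o_2285_2290 : allTr oF to_2285_2290 = true := allTr_mk ok_2287 o_2285_2287 o_2288_2290

theorem o_2308_2313 : allTr oF to_2308_2313 = true := allTr_mk ok_2310 o_2308_2310 o_2311_2313

theorem o_2337_2342 : allTr oF to_2337_2342 = true := allTr_mk ok_2339 o_2337_2339 o_2340_2342

theorem o_2349_2354 : allTr oF to_2349_2354 = true := allTr_mk ok_2351 o_2349_2351 o_2352_2354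

theorem o_2378_2383 : allTr oF to_2378_2383 = true := allTr_mk ok_2380 o_2378_2380 o_2381_2383

theorem o_2412_2417 : allTr oF to_2412_2417 = true := allTr_mk ok_2414 o_2412_2414 o_2415_2417

theorem o_2424_2429 : allTr oF to_2424_2429 = true := allTr_mk ok_2426 o_2424_2426 o_2427_2429

theorem o_2482_2487 : allTr oF to_2482_2487 = true := allTr_mk ok_2484 o_2482_2484 o_2485_2487

theorem o_2488_2493 : allTr oF to_2488_2493 = true := allTr_mk ok_2490 o_2488_2490 o_2491_2493

theorem o_2517_2522 : allTr oF to_2517_2522 = true := allTr_mk ok_2519 o_2517_2519 o_2520_2522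

theorem o_2540_2545 : allTr oF to_2540_2545 = true := allTr_mk ok_2542 o_2540_2542 o_2543_2545

theorem o_2563_2568 : allTr oF to_2563_2568 = true := allTr_mk ok_2565 o_2563_2565 o_2566_2568

theorem o_2574_2579 : allTr oF to_2574_2579 = true := allTr_mk ok_2576 o_2574_2576 o_2577_2579

theorem o_2580_2585 : allTr oF to_2580_2585 = true := allTr_mk ok_2582 o_2580_2582 o_2583_2585

theorem o_2586_2591 : allTr oF to_2586_2591 = true := allTr_mk ok_2588 o_2586_2588 o_2589_2591

theorem o_2609_2614 : allTr oF to_2609_2614 = true := allTr_mk ok_2611 o_2609_2611 o_2612_2614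

theorem o_2615_2620 : allTr oF to_2615_2620 = true := allTr_mk ok_2617 o_2615_2617 o_2618_2620

theorem o_2621_2626 : allTr oF to_2621_2626 = true := allTr_mk ok_2623 o_2621_2623 o_2624_2626

theorem o_2627_2632 : allTr oF to_2627_2632 = true := allTr_mk ok_2629 o_2627_2629 o_2630_2632

theorem o_2633_2638 : allTr oF to_2633_2638 = true := allTr_mk ok_2635 o_2633_2635 o_2636_2638

theorem o_2644_2649 : allTr oF to_2644_2649 = true := allTr_mk ok_2646 o_2644_2646 o_2647_2649

theorem o_2650_2655 : allTr oF to_2650_2655 = true := allTr_mk ok_2652 o_2650_2652 o_2653_2655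

theorem o_2656_2661 : allTr oF to_2656_2661 = true := allTr_mk ok_2658 o_2656_2658 o_2659_2661

theorem o_2667_2672 : allTr oF to_2667_2672 = true := allTr_mk ok_2669 o_2667_2669 o_2670_2672

theorem o_2673_2678 : allTr oF to_2673_2678 = true := allTr_mk ok_2675 o_2673_2675 o_2676_2678

theorem o_2679_2684 : allTr oF to_2679_2684 = true := allTr_mk ok_2681 o_2679_2681 o_2682_2684

theorem o_2690_2695 : allTr oF to_2690_2695 = true := allTr_mk ok_2692 o_2690_2692 o_2693_2695

theorem o_2696_2701 : allTr oF to_2696_2701 = true := allTr_mk ok_2698 o_2696_2698 o_2699_2701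

theorem o_2702_2707 : allTr oF to_2702_2707 = true := allTr_mk ok_2704 o_2702_2704 o_2705_2707

theorem o_2708_2713 : allTr oF to_2708_2713 = true := allTr_mk ok_2710 o_2708_2710 o_2711_2713

theorem o_2714_2719 : allTr oF to_2714_2719 = true := allTr_mk ok_2716 o_2714_2716 o_2717_2719

theorem o_2720_2725 : allTr oF to_2720_2725 = true := allTr_mk ok_2722 o_2720_2722 o_2723_2725

theorem o_2726_2731 : allTr oF to_2726_2731 = true := allTr_mk ok_2728 o_2726_2728 o_2729_2731

theorem o_2737_2742 : allTr oF to_2737_2742 = true := allTr_mk ok_2739 o_2737_2739 o_2740_2742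

theorem o_2743_2748 : allTr oF to_2743_2748 = true := allTr_mk ok_2745 o_2743_2745 o_2746_2748

theorem o_2749_2754 : allTr oF to_2749_2754 = true := allTr_mk ok_2751 o_2749_2751 o_2752_2754

theorem o_2760_2765 : allTr oF to_2760_2765 = true := allTr_mk ok_2762 o_2760_2762 o_2763_2765

theorem o_2766_2771 : allTr oF to_2766_2771 = true := allTr_mk ok_2768 o_2766_2768 o_2769_2771

theorem o_2772_2777 : allTr oF to_2772_2777 = true := allTr_mk ok_2774 o_2772_2774 o_2775_2777

theorem o_2783_2788 : allTr oF to_2783_2788 = true := allTr_mk ok_2785 o_2783_2785 o_2786_2788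

theorem o_2789_2794 : allTr oF to_2789_2794 = true := allTr_mk ok_2791 o_2789_2791 o_2792_2794

theorem o_2795_2800 : allTr oF to_2795_2800 = true := allTr_mk ok_2797 o_2795_2797 o_2798_2800

theorem o_2801_2806 : allTr oF to_2801_2806 = true := allTr_mk ok_2803 o_2801_2803 o_2804_2806

theorem o_2807_2812 : allTr oF to_2807_2812 = true := allTr_mk ok_2809 o_2807_2809 o_2810_2812

theorem o_2813_2818 : allTr oF to_2813_2818 = true := allTr_mk ok_2815 o_2813_2815 o_2816_2818

theorem o_2819_2824 : allTr oF to_2819_2824 = true := allTr_mk ok_2821 o_2819_2821 o_2822_2824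

theorem o_2830_2835 : allTr oF to_2830_2835 = true := allTr_mk ok_2832 o_2830_2832 o_2833_2835

theorem o_2836_2841 : allTr oF to_2836_2841 = true := allTr_mk ok_2838 o_2836_2838 o_2839_2841

theorem o_2842_2847 : allTr oF to_2842_2847 = true := allTr_mk ok_2844 o_2842_2844 o_2845_2847

theorem o_2853_2858 : allTr oF to_2853_2858 = true := allTr_mk ok_2855 o_2853_2855 o_2856_2858

theorem o_2859_2864 : allTr oF to_2859_2864 = true := allTr_mk ok_2861 o_2859_2861 o_2862_2864

theorem o_2865_2870 : allTr oF to_2865_2870 = true := allTr_mk ok_2867 o_2865_2867 o_2868_2870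

theorem o_2876_2881 : allTr oF to_2876_2881 = true := allTr_mk ok_2878 o_2876_2878 o_2879_2881

theorem o_2882_2887 : allTr oF to_2882_2887 = true := allTr_mk ok_2884 o_2882_2884 o_2885_2887

theorem o_2888_2893 : allTr oF to_2888_2893 = true := allTr_mk ok_2890 o_2888_2890 o_2891_2893

theorem o_2899_2904 : allTr oF to_2899_2904 = true := allTr_mk ok_2901 o_2899_2901 o_2902_2904

theorem o_2905_2910 : allTr oF to_2905_2910 = true := allTr_mk ok_2907 o_2905_2907 o_2908_2910

theorem o_2911_2916 : allTr oF to_2911_2916 = true := allTr_mk ok_2913 o_2911_2913 o_2914_2916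

theorem o_2922_2927 : allTr oF to_2922_2927 = true := allTr_mk ok_2924 o_2922_2924 o_2925_2927

theorem o_2928_2933 : allTr oF to_2928_2933 = true := allTr_mk ok_2930 o_2928_2930 o_2931_2933

theorem o_2934_2939 : allTr oF to_2934_2939 = true := allTr_mk ok_2936 o_2934_2936 o_2937_2939

theorem o_2945_2950 : allTr oF to_2945_2950 = true := allTr_mk ok_2947 o_2945_2947 o_2948_2950

theorem o_2951_2956 : allTr oF to_2951_2956 = true := allTr_mk ok_2953 o_2951_2953 o_2954_2956

theorem o_2957_2962 : allTr oF to_2957_2962 = true := allTr_mk ok_2959 o_2957_2959 o_2960_2962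

theorem o_987_997 : allTr oF to_987_997 = true := allTr_mk ok_992 o_987_992 o_993_997

theorem o_1010_1020 : allTr oF to_1010_1020 = true := allTr_mk ok_1015 o_1010_1015 o_1016_1020

theorem o_1102_1112 : allTr oF to_1102_1112 = true := allTr_mk ok_1107 o_1102_1107 o_1108_1112

theorem o_1149_1159 : allTr oF to_1149_1159 = true := allTr_mk ok_1154 o_1149_1154 o_1155_1159

theorem o_1172_1182 : allTr oF to_1172_1182 = true := allTr_mk ok_1177 o_1172_1177 o_1178_1182

theorem o_1242_1252 : allTr oF to_1242_1252 = true := allTr_mk ok_1247 o_1242_1247 o_1248_1252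

theorem o_1265_1275 : allTr oF to_1265_1275 = true := allTr_mk ok_1270 o_1265_1270 o_1271_1275

theorem o_1288_1298 : allTr oF to_1288_1298 = true := allTr_mk ok_1293 o_1288_1293 o_1294_1298

theorem o_1381_1391 : allTr oF to_1381_1391 = true := allTr_mk ok_1386 o_1381_1386 o_1387_1391

theorem o_1404_1414 : allTr oF to_1404_1414 = true := allTr_mk ok_1409 o_1404_1409 o_1410_1414

theorem o_1427_1437 : allTr oF to_1427_1437 = true := allTr_mk ok_1432 o_1427_1432 o_1433_1437

theorem o_1520_1530 : allTr oF to_1520_1530 = true := allTr_mk ok_1525 o_1520_1525 o_1526_1530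

theorem o_1543_1553 : allTr oF to_1543_1553 = true := allTr_mk ok_1548 o_1543_1548 o_1549_1553

theorem o_1566_1576 : allTr oF to_1566_1576 = true := allTr_mk ok_1571 o_1566_1571 o_1572_1576

theorem o_1613_1623 : allTr oF to_1613_1623 = true := allTr_mk ok_1618 o_1613_1618 o_1619_1623

theorem o_1636_1646 : allTr oF to_1636_1646 = true := allTr_mk ok_1641 o_1636_1641 o_1642_1646

theorem o_1659_1669 : allTr oF to_1659_1669 = true := allTr_mk ok_1664 o_1659_1664 o_1665_1669

theorem o_1752_1762 : allTr oF to_1752_1762 = true := allTr_mk ok_1757 o_1752_1757 o_1758_1762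

theorem o_1821_1831 : allTr oF to_1821_1831 = true := allTr_mk ok_1826 o_1821_1826 o_1827_1831

theorem o_1844_1854 : allTr oF to_1844_1854 = true := allTr_mk ok_1849 o_1844_1849 o_1850_1854

theorem o_1937_1947 : allTr oF to_1937_1947 = true := allTr_mk ok_1942 o_1937_1942 o_1943_1947

theorem o_2030_2040 : allTr oF to_2030_2040 = true := allTr_mk ok_2035 o_2030_2035 o_2036_2040

theorem o_2146_2156 : allTr oF to_2146_2156 = true := allTr_mk ok_2151 o_2146_2151 o_2152_2156

theorem o_2262_2272 : allTr oF to_2262_2272 = true := allTr_mk ok_2267 o_2262_2267 o_2268_2272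

theorem o_2285_2295 : allTr oF to_2285_2295 = true := allTr_mk ok_2290 o_2285_2290 o_2291_2295

theorem o_2308_2318 : allTr oF to_2308_2318 = true := allTr_mk ok_2313 o_2308_2313 o_2314_2318

theorem o_2355_2365 : allTr oF to_2355_2365 = true := allTr_mk ok_2360 o_2355_2360 o_2361_2365

theorem o_2378_2388 : allTr oF to_2378_2388 = true := allTr_mk ok_2383 o_2378_2383 o_2384_2388

theorem o_2448_2458 : allTr oF to_2448_2458 = true := allTr_mk ok_2453 o_2448_2453 o_2454_2458

theorem o_2471_2481 : allTr oF to_2471_2481 = true := allTr_mk ok_2476 o_2471_2476 o_2477_2481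

theorem o_2494_2504 : allTr oF to_2494_2504 = true := allTr_mk ok_2499 o_2494_2499 o_2500_2504

theorem o_2517_2527 : allTr oF to_2517_2527 = true := allTr_mk ok_2522 o_2517_2522 o_2523_2527

theorem o_2540_2550 : allTr oF to_2540_2550 = true := allTr_mk ok_2545 o_2540_2545 o_2546_2550

theorem o_2563_2573 : allTr oF to_2563_2573 = true := allTr_mk ok_2568 o_2563_2568 o_2569_2573

theorem o_2586_2596 : allTr oF to_2586_2596 = true := allTr_mk ok_2591 o_2586_2591 o_2592_2596

theorem o_2633_2643 : allTr oF to_2633_2643 = true := allTr_mk ok_2638 o_2633_2638 o_2639_2643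

theorem o_2656_2666 : allTr oF to_2656_2666 = true := allTr_mk ok_2661 o_2656_2661 o_2662_2666

theorem o_2679_2689 : allTr oF to_2679_2689 = true := allTr_mk ok_2684 o_2679_2684 o_2685_2689

theorem o_2726_2736 : allTr oF to_2726_2736 = true := allTr_mk ok_2731 o_2726_2731 o_2732_2736

theorem o_2749_2759 : allTr oF to_2749_2759 = true := allTr_mk ok_2754 o_2749_2754 o_2755_2759

theorem o_2772_2782 : allTr oF to_2772_2782 = true := allTr_mk ok_2777 o_2772_2777 o_2778_2782

theorem o_2819_2829 : allTr oF to_2819_2829 = true := allTr_mk ok_2824 o_2819_2824 o_2825_2829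

theorem o_2842_2852 : allTr oF to_2842_2852 = true := allTr_mk ok_2847 o_2842_2847 o_2848_2852

theorem o_2865_2875 : allTr oF to_2865_2875 = true := allTr_mk ok_2870 o_2865_2870 o_2871_2875

theorem o_2888_2898 : allTr oF to_2888_2898 = true := allTr_mk ok_2893 o_2888_2893 o_2894_2898

theorem o_2911_2921 : allTr oF to_2911_2921 = true := allTr_mk ok_2916 o_2911_2916 o_2917_2921

theorem o_2934_2944 : allTr oF to_2934_2944 = true := allTr_mk ok_2939 o_2934_2939 o_2940_2944

theorem o_2957_2967 : allTr oF to_2957_2967 = true := allTr_mk ok_2962 o_2957_2962 o_2963_2967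

theorem o_859_870 : allTr oF to_859_870 = true := allTr_mk ok_864 o_859_864 o_865_870

theorem o_905_916 : allTr oF to_905_916 = true := allTr_mk ok_910 o_905_910 o_911_916

theorem o_928_939 : allTr oF to_928_939 = true := allTr_mk ok_933 o_928_933 o_934_939

theorem o_1021_1032 : allTr oF to_1021_1032 = true := allTr_mk ok_1026 o_1021_1026 o_1027_1032

theorem o_1044_1055 : allTr oF to_1044_1055 = true := allTr_mk ok_1049 o_1044_1049 o_1050_1055

theorem o_1067_1078 : allTr oF to_1067_1078 = true := allTr_mk ok_1072 o_1067_1072 o_1073_1078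

theorem o_1113_1124 : allTr oF to_1113_1124 = true := allTr_mk ok_1118 o_1113_1118 o_1119_1124

theorem o_1137_1148 : allTr oF to_1137_1148 = true := allTr_mk ok_1142 o_1137_1142 o_1143_1148

theorem o_1160_1171 : allTr oF to_1160_1171 = true := allTr_mk ok_1165 o_1160_1165 o_1166_1171

theorem o_1183_1194 : allTr oF to_1183_1194 = true := allTr_mk ok_1188 o_1183_1188 o_1189_1194

theorem o_1206_1217 : allTr oF to_1206_1217 = true := allTr_mk ok_1211 o_1206_1211 o_1212_1217

theorem o_1218_1229 : allTr oF to_1218_1229 = true := allTr_mk ok_1223 o_1218_1223 o_1224_1229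

theorem o_1230_1241 : allTr oF to_1230_1241 = true := allTr_mk ok_1235 o_1230_1235 o_1236_1241

theorem o_1253_1264 : allTr oF to_1253_1264 = true := allTr_mk ok_1258 o_1253_1258 o_1259_1264

theorem o_1276_1287 : allTr oF to_1276_1287 = true := allTr_mk ok_1281 o_1276_1281 o_1282_1287

theorem o_1323_1334 : allTr oF to_1323_1334 = true := allTr_mk ok_1328 o_1323_1328 o_1329_1334

theorem o_1346_1357 : allTr oF to_1346_1357 = true := allTr_mk ok_1351 o_1346_1351 o_1352_1357

theorem o_1438_1449 : allTr oF to_1438_1449 = true := allTr_mk ok_1443 o_1438_1443 o_1444_1449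

theorem o_1461_1472 : allTr oF to_1461_1472 = true := allTr_mk ok_1466 o_1461_1466 o_1467_1472

theorem o_1496_1507 : allTr oF to_1496_1507 = true := allTr_mk ok_1501 o_1496_1501 o_1502_1507

theorem o_1508_1519 : allTr oF to_1508_1519 = true := allTr_mk ok_1513 o_1508_1513 o_1514_1519

theorem o_1531_1542 : allTr oF to_1531_1542 = true := allTr_mk ok_1536 o_1531_1536 o_1537_1542

theorem o_1554_1565 : allTr oF to_1554_1565 = true := allTr_mk ok_1559 o_1554_1559 o_1560_1565

theorem o_1577_1588 : allTr oF to_1577_1588 = true := allTr_mk ok_1582 o_1577_1582 o_1583_1588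

theorem o_1589_1600 : allTr oF to_1589_1600 = true := allTr_mk ok_1594 o_1589_1594 o_1595_1600

theorem o_1601_1612 : allTr oF to_1601_1612 = true := allTr_mk ok_1606 o_1601_1606 o_1607_1612

theorem o_1624_1635 : allTr oF to_1624_1635 = true := allTr_mk ok_1629 o_1624_1629 o_1630_1635

theorem o_1647_1658 : allTr oF to_1647_1658 = true := allTr_mk ok_1652 o_1647_1652 o_1653_1658

theorem o_1670_1681 : allTr oF to_1670_1681 = true := allTr_mk ok_1675 o_1670_1675 o_1676_1681

theorem o_1682_1693 : allTr oF to_1682_1693 = true := allTr_mk ok_1687 o_1682_1687 o_1688_1693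

theorem o_1694_1705 : allTr oF to_1694_1705 = true := allTr_mk ok_1699 o_1694_1699 o_1700_1705

theorem o_1717_1728 : allTr oF to_1717_1728 = true := allTr_mk ok_1722 o_1717_1722 o_1723_1728

theorem o_1763_1774 : allTr oF to_1763_1774 = true := allTr_mk ok_1768 o_1763_1768 o_1769_1774

theorem o_1786_1797 : allTr oF to_1786_1797 = true := allTr_mk ok_1791 o_1786_1791 o_1792_1797

theorem o_1809_1820 : allTr oF to_1809_1820 = true := allTr_mk ok_1814 o_1809_1814 o_1815_1820

theorem o_1832_1843 : allTr oF to_1832_1843 = true := allTr_mk ok_1837 o_1832_1837 o_1838_1843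

theorem o_1855_1866 : allTr oF to_1855_1866 = true := allTr_mk ok_1860 o_1855_1860 o_1861_1866

theorem o_1867_1878 : allTr oF to_1867_1878 = true := allTr_mk ok_1872 o_1867_1872 o_1873_1878

theorem o_1879_1890 : allTr oF to_1879_1890 = true := allTr_mk ok_1884 o_1879_1884 o_1885_1890

theorem o_1960_1971 : allTr oF to_1960_1971 = true := allTr_mk ok_1965 o_1960_1965 o_1966_1971

theorem o_2041_2052 : allTr oF to_2041_2052 = true := allTr_mk ok_2046 o_2041_2046 o_2047_2052

theorem o_2180_2191 : allTr oF to_2180_2191 = true := allTr_mk ok_2185 o_2180_2185 o_2186_2191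

theorem o_2203_2214 : allTr oF to_2203_2214 = true := allTr_mk ok_2208 o_2203_2208 o_2209_2214

theorem o_2250_2261 : allTr oF to_2250_2261 = true := allTr_mk ok_2255 o_2250_2255 o_2256_2261

theorem o_2273_2284 : allTr oF to_2273_2284 = true := allTr_mk ok_2278 o_2273_2278 o_2279_2284

theorem o_2296_2307 : allTr oF to_2296_2307 = true := allTr_mk ok_2301 o_2296_2301 o_2302_2307

theorem o_2331_2342 : allTr oF to_2331_2342 = true := allTr_mk ok_2336 o_2331_2336 o_2337_2342

theorem o_2343_2354 : allTr oF to_2343_2354 = true := allTr_mk ok_2348 o_2343_2348 o_2349_2354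

theorem o_2366_2377 : allTr oF to_2366_2377 = true := allTr_mk ok_2371 o_2366_2371 o_2372_2377

theorem o_2412_2423 : allTr oF to_2412_2423 = true := allTr_mk ok_2417 o_2412_2417 o_2418_2423

theorem o_2424_2435 : allTr oF to_2424_2435 = true := allTr_mk ok_2429 o_2424_2429 o_2430_2435

theorem o_2436_2447 : allTr oF to_2436_2447 = true := allTr_mk ok_2441 o_2436_2441 o_2442_2447

theorem o_2459_2470 : allTr oF to_2459_2470 = true := allTr_mk ok_2464 o_2459_2464 o_2465_2470

theorem o_2482_2493 : allTr oF to_2482_2493 = true := allTr_mk ok_2487 o_2482_2487 o_2488_2493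

theorem o_2574_2585 : allTr oF to_2574_2585 = true := allTr_mk ok_2579 o_2574_2579 o_2580_2585

theorem o_2597_2608 : allTr oF to_2597_2608 = true := allTr_mk ok_2602 o_2597_2602 o_2603_2608

theorem o_2609_2620 : allTr oF to_2609_2620 = true := allTr_mk ok_2614 o_2609_2614 o_2615_2620

theorem o_2621_2632 : allTr oF to_2621_2632 = true := allTr_mk ok_2626 o_2621_2626 o_2627_2632

theorem o_2644_2655 : allTr oF to_2644_2655 = true := allTr_mk ok_2649 o_2644_2649 o_2650_2655

theorem o_2667_2678 : allTr oF to_2667_2678 = true := allTr_mk ok_2672 o_2667_2672 o_2673_2678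

theorem o_2690_2701 : allTr oF to_2690_2701 = true := allTr_mk ok_2695 o_2690_2695 o_2696_2701

theorem o_2702_2713 : allTr oF to_2702_2713 = true := allTr_mk ok_2707 o_2702_2707 o_2708_2713

theorem o_2714_2725 : allTr oF to_2714_2725 = true := allTr_mk ok_2719 o_2714_2719 o_2720_2725

theorem o_2737_2748 : allTr oF to_2737_2748 = true := allTr_mk ok_2742 o_2737_2742 o_2743_2748

theorem o_2760_2771 : allTr oF to_2760_2771 = true := allTr_mk ok_2765 o_2760_2765 o_2766_2771

theorem o_2783_2794 : allTr oF to_2783_2794 = true := allTr_mk ok_2788 o_2783_2788 o_2789_2794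

theorem o_2795_2806 : allTr oF to_2795_2806 = true := allTr_mk ok_2800 o_2795_2800 o_2801_2806

theorem o_2807_2818 : allTr oF to_2807_2818 = true := allTr_mk ok_2812 o_2807_2812 o_2813_2818

theorem o_2830_2841 : allTr oF to_2830_2841 = true := allTr_mk ok_2835 o_2830_2835 o_2836_2841

theorem o_2853_2864 : allTr oF to_2853_2864 = true := allTr_mk ok_2858 o_2853_2858 o_2859_2864

theorem o_2876_2887 : allTr oF to_2876_2887 = true := allTr_mk ok_2881 o_2876_2881 o_2882_2887

theorem o_2899_2910 : allTr oF to_2899_2910 = true := allTr_mk ok_2904 o_2899_2904 o_2905_2910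

theorem o_2922_2933 : allTr oF to_2922_2933 = true := allTr_mk ok_2927 o_2922_2927 o_2928_2933

theorem o_2945_2956 : allTr oF to_2945_2956 = true := allTr_mk ok_2950 o_2945_2950 o_2951_2956

theorem o_210_232 : allTr oF to_210_232 = true := allTr_mk ok_221 o_210_221 o_222_232

theorem o_673_695 : allTr oF to_673_695 = true := allTr_mk ok_684 o_673_684 o_685_695

theorem o_812_834 : allTr oF to_812_834 = true := allTr_mk ok_823 o_812_823 o_824_834

theorem o_859_881 : allTr oF to_859_881 = true := allTr_mk ok_870 o_859_870 o_871_881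

theorem o_905_927 : allTr oF to_905_927 = true := allTr_mk ok_916 o_905_916 o_917_927

theorem o_952_974 : allTr oF to_952_974 = true := allTr_mk ok_963 o_952_963 o_964_974

theorem o_975_997 : allTr oF to_975_997 = true := allTr_mk ok_986 o_975_986 o_987_997

theorem o_998_1020 : allTr oF to_998_1020 = true := allTr_mk ok_1009 o_998_1009 o_1010_1020

theorem o_1021_1043 : allTr oF to_1021_1043 = true := allTr_mk ok_1032 o_1021_1032 o_1033_1043

theorem o_1044_1066 : allTr oF to_1044_1066 = true := allTr_mk ok_1055 o_1044_1055 o_1056_1066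

theorem o_1067_1089 : allTr oF to_1067_1089 = true := allTr_mk ok_1078 o_1067_1078 o_1079_1089

theorem o_1090_1112 : allTr oF to_1090_1112 = true := allTr_mk ok_1101 o_1090_1101 o_1102_1112

theorem o_1137_1159 : allTr oF to_1137_1159 = true := allTr_mk ok_1148 o_1137_1148 o_1149_1159

theorem o_1160_1182 : allTr oF to_1160_1182 = true := allTr_mk ok_1171 o_1160_1171 o_1172_1182

theorem o_1183_1205 : allTr oF to_1183_1205 = true := allTr_mk ok_1194 o_1183_1194 o_1195_1205

theorem o_1230_1252 : allTr oF to_1230_1252 = true := allTr_mk ok_1241 o_1230_1241 o_1242_1252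

theorem o_1253_1275 : allTr oF to_1253_1275 = true := allTr_mk ok_1264 o_1253_1264 o_1265_1275

theorem o_1276_1298 : allTr oF to_1276_1298 = true := allTr_mk ok_1287 o_1276_1287 o_1288_1298

theorem o_1323_1345 : allTr oF to_1323_1345 = true := allTr_mk ok_1334 o_1323_1334 o_1335_1345

theorem o_1346_1368 : allTr oF to_1346_1368 = true := allTr_mk ok_1357 o_1346_1357 o_1358_1368

theorem o_1369_1391 : allTr oF to_1369_1391 = true := allTr_mk ok_1380 o_1369_1380 o_1381_1391

theorem o_1392_1414 : allTr oF to_1392_1414 = true := allTr_mk ok_1403 o_1392_1403 o_1404_1414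

theorem o_1415_1437 : allTr oF to_1415_1437 = true := allTr_mk ok_1426 o_1415_1426 o_1427_1437

theorem o_1438_1460 : allTr oF to_1438_1460 = true := allTr_mk ok_1449 o_1438_1449 o_1450_1460

theorem o_1461_1483 : allTr oF to_1461_1483 = true := allTr_mk ok_1472 o_1461_1472 o_1473_1483

theorem o_1508_1530 : allTr oF to_1508_1530 = true := allTr_mk ok_1519 o_1508_1519 o_1520_1530

theorem o_1531_1553 : allTr oF to_1531_1553 = true := allTr_mk ok_1542 o_1531_1542 o_1543_1553

theorem o_1554_1576 : allTr oF to_1554_1576 = true := allTr_mk ok_1565 o_1554_1565 o_1566_1576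

theorem o_1601_1623 : allTr oF to_1601_1623 = true := allTr_mk ok_1612 o_1601_1612 o_1613_1623

theorem o_1624_1646 : allTr oF to_1624_1646 = true := allTr_mk ok_1635 o_1624_1635 o_1636_1646

theorem o_1647_1669 : allTr oF to_1647_1669 = true := allTr_mk ok_1658 o_1647_1658 o_1659_1669

theorem o_1694_1716 : allTr oF to_1694_1716 = true := allTr_mk ok_1705 o_1694_1705 o_1706_1716

theorem o_1717_1739 : allTr oF to_1717_1739 = true := allTr_mk ok_1728 o_1717_1728 o_1729_1739

theorem o_1740_1762 : allTr oF to_1740_1762 = true := allTr_mk ok_1751 o_1740_1751 o_1752_1762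

theorem o_1763_1785 : allTr oF to_1763_1785 = true := allTr_mk ok_1774 o_1763_1774 o_1775_1785

theorem o_1786_1808 : allTr oF to_1786_1808 = true := allTr_mk ok_1797 o_1786_1797 o_1798_1808

theorem o_1809_1831 : allTr oF to_1809_1831 = true := allTr_mk ok_1820 o_1809_1820 o_1821_1831

theorem o_1832_1854 : allTr oF to_1832_1854 = true := allTr_mk ok_1843 o_1832_1843 o_1844_1854

theorem o_1879_1901 : allTr oF to_1879_1901 = true := allTr_mk ok_1890 o_1879_1890 o_1891_1901

theorem o_1925_1947 : allTr oF to_1925_1947 = true := allTr_mk ok_1936 o_1925_1936 o_1937_1947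

theorem o_1972_1994 : allTr oF to_1972_1994 = true := allTr_mk ok_1983 o_1972_1983 o_1984_1994

theorem o_1995_2017 : allTr oF to_1995_2017 = true := allTr_mk ok_2006 o_1995_2006 o_2007_2017

theorem o_2018_2040 : allTr oF to_2018_2040 = true := allTr_mk ok_2029 o_2018_2029 o_2030_2040

theorem o_2088_2110 : allTr oF to_2088_2110 = true := allTr_mk ok_2099 o_2088_2099 o_2100_2110

theorem o_2111_2133 : allTr oF to_2111_2133 = true := allTr_mk ok_2122 o_2111_2122 o_2123_2133

theorem o_2134_2156 : allTr oF to_2134_2156 = true := allTr_mk ok_2145 o_2134_2145 o_2146_2156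

theorem o_2157_2179 : allTr oF to_2157_2179 = true := allTr_mk ok_2168 o_2157_2168 o_2169_2179

theorem o_2180_2202 : allTr oF to_2180_2202 = true := allTr_mk ok_2191 o_2180_2191 o_2192_2202

theorem o_2203_2225 : allTr oF to_2203_2225 = true := allTr_mk ok_2214 o_2203_2214 o_2215_2225

theorem o_2250_2272 : allTr oF to_2250_2272 = true := allTr_mk ok_2261 o_2250_2261 o_2262_2272

theorem o_2273_2295 : allTr oF to_2273_2295 = true := allTr_mk ok_2284 o_2273_2284 o_2285_2295

theorem o_2296_2318 : allTr oF to_2296_2318 = true := allTr_mk ok_2307 o_2296_2307 o_2308_2318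

theorem o_2343_2365 : allTr oF to_2343_2365 = true := allTr_mk ok_2354 o_2343_2354 o_2355_2365

theorem o_2366_2388 : allTr oF to_2366_2388 = true := allTr_mk ok_2377 o_2366_2377 o_2378_2388

theorem o_2389_2411 : allTr oF to_2389_2411 = true := allTr_mk ok_2400 o_2389_2400 o_2401_2411

theorem o_2436_2458 : allTr oF to_2436_2458 = true := allTr_mk ok_2447 o_2436_2447 o_2448_2458

theorem o_2459_2481 : allTr oF to_2459_2481 = true := allTr_mk ok_2470 o_2459_2470 o_2471_2481

theorem o_2482_2504 : allTr oF to_2482_2504 = true := allTr_mk ok_2493 o_2482_2493 o_2494_2504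

theorem o_2505_2527 : allTr oF to_2505_2527 = true := allTr_mk ok_2516 o_2505_2516 o_2517_2527

theorem o_2528_2550 : allTr oF to_2528_2550 = true := allTr_mk ok_2539 o_2528_2539 o_2540_2550

theorem o_2551_2573 : allTr oF to_2551_2573 = true := allTr_mk ok_2562 o_2551_2562 o_2563_2573

theorem o_2574_2596 : allTr oF to_2574_2596 = true := allTr_mk ok_2585 o_2574_2585 o_2586_2596

theorem o_2621_2643 : allTr oF to_2621_2643 = true := allTr_mk ok_2632 o_2621_2632 o_2633_2643

theorem o_2644_2666 : allTr oF to_2644_2666 = true := allTr_mk ok_2655 o_2644_2655 o_2656_2666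

theorem o_2667_2689 : allTr oF to_2667_2689 = true := allTr_mk ok_2678 o_2667_2678 o_2679_2689

theorem o_2714_2736 : allTr oF to_2714_2736 = true := allTr_mk ok_2725 o_2714_2725 o_2726_2736

theorem o_2737_2759 : allTr oF to_2737_2759 = true := allTr_mk ok_2748 o_2737_2748 o_2749_2759

theorem o_2760_2782 : allTr oF to_2760_2782 = true := allTr_mk ok_2771 o_2760_2771 o_2772_2782

theorem o_2807_2829 : allTr oF to_2807_2829 = true := allTr_mk ok_2818 o_2807_2818 o_2819_2829

theorem o_2830_2852 : allTr oF to_2830_2852 = true := allTr_mk ok_2841 o_2830_2841 o_2842_2852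

theorem o_2853_2875 : allTr oF to_2853_2875 = true := allTr_mk ok_2864 o_2853_2864 o_2865_2875

theorem o_2876_2898 : allTr oF to_2876_2898 = true := allTr_mk ok_2887 o_2876_2887 o_2888_2898

theorem o_2899_2921 : allTr oF to_2899_2921 = true := allTr_mk ok_2910 o_2899_2910 o_2911_2921

theorem o_2922_2944 : allTr oF to_2922_2944 = true := allTr_mk ok_2933 o_2922_2933 o_2934_2944

theorem o_2945_2967 : allTr oF to_2945_2967 = true := allTr_mk ok_2956 o_2945_2956 o_2957_2967

theorem o_557_580 : allTr oF to_557_580 = true := allTr_mk ok_568 o_557_568 o_569_580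

theorem o_835_858 : allTr oF to_835_858 = true := allTr_mk ok_846 o_835_846 o_847_858

theorem o_928_951 : allTr oF to_928_951 = true := allTr_mk ok_939 o_928_939 o_940_951

theorem o_1113_1136 : allTr oF to_1113_1136 = true := allTr_mk ok_1124 o_1113_1124 o_1125_1136

theorem o_1206_1229 : allTr oF to_1206_1229 = true := allTr_mk ok_1217 o_1206_1217 o_1218_1229

theorem o_1484_1507 : allTr oF to_1484_1507 = true := allTr_mk ok_1495 o_1484_1495 o_1496_1507

theorem o_1577_1600 : allTr oF to_1577_1600 = true := allTr_mk ok_1588 o_1577_1588 o_1589_1600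

theorem o_1670_1693 : allTr oF to_1670_1693 = true := allTr_mk ok_1681 o_1670_1681 o_1682_1693

theorem o_1855_1878 : allTr oF to_1855_1878 = true := allTr_mk ok_1866 o_1855_1866 o_1867_1878

theorem o_1948_1971 : allTr oF to_1948_1971 = true := allTr_mk ok_1959 o_1948_1959 o_1960_1971

theorem o_2041_2064 : allTr oF to_2041_2064 = true := allTr_mk ok_2052 o_2041_2052 o_2053_2064

theorem o_2226_2249 : allTr oF to_2226_2249 = true := allTr_mk ok_2237 o_2226_2237 o_2238_2249

theorem o_2319_2342 : allTr oF to_2319_2342 = true := allTr_mk ok_2330 o_2319_2330 o_2331_2342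

theorem o_2412_2435 : allTr oF to_2412_2435 = true := allTr_mk ok_2423 o_2412_2423 o_2424_2435

theorem o_2597_2620 : allTr oF to_2597_2620 = true := allTr_mk ok_2608 o_2597_2608 o_2609_2620

theorem o_2690_2713 : allTr oF to_2690_2713 = true := allTr_mk ok_2701 o_2690_2701 o_2702_2713

theorem o_2783_2806 : allTr oF to_2783_2806 = true := allTr_mk ok_2794 o_2783_2794 o_2795_2806

theorem o_279_324 : allTr oF to_279_324 = true := allTr_mk ok_301 o_279_301 o_302_324

theorem o_511_556 : allTr oF to_511_556 = true := allTr_mk ok_533 o_511_533 o_534_556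

theorem o_650_695 : allTr oF to_650_695 = true := allTr_mk ok_672 o_650_672 o_673_695

theorem o_789_834 : allTr oF to_789_834 = true := allTr_mk ok_811 o_789_811 o_812_834

theorem o_882_927 : allTr oF to_882_927 = true := allTr_mk ok_904 o_882_904 o_905_927

theorem o_975_1020 : allTr oF to_975_1020 = true := allTr_mk ok_997 o_975_997 o_998_1020

theorem o_1021_1066 : allTr oF to_1021_1066 = true := allTr_mk ok_1043 o_1021_1043 o_1044_1066

theorem o_1067_1112 : allTr oF to_1067_1112 = true := allTr_mk ok_1089 o_1067_1089 o_1090_1112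

theorem o_1160_1205 : allTr oF to_1160_1205 = true := allTr_mk ok_1182 o_1160_1182 o_1183_1205

theorem o_1253_1298 : allTr oF to_1253_1298 = true := allTr_mk ok_1275 o_1253_1275 o_1276_1298

theorem o_1346_1391 : allTr oF to_1346_1391 = true := allTr_mk ok_1368 o_1346_1368 o_1369_1391

theorem o_1392_1437 : allTr oF to_1392_1437 = true := allTr_mk ok_1414 o_1392_1414 o_1415_1437

theorem o_1438_1483 : allTr oF to_1438_1483 = true := allTr_mk ok_1460 o_1438_1460 o_1461_1483

theorem o_1531_1576 : allTr oF to_1531_1576 = true := allTr_mk ok_1553 o_1531_1553 o_1554_1576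

theorem o_1624_1669 : allTr oF to_1624_1669 = true := allTr_mk ok_1646 o_1624_1646 o_1647_1669

theorem o_1717_1762 : allTr oF to_1717_1762 = true := allTr_mk ok_1739 o_1717_1739 o_1740_1762

theorem o_1763_1808 : allTr oF to_1763_1808 = true := allTr_mk ok_1785 o_1763_1785 o_1786_1808

theorem o_1809_1854 : allTr oF to_1809_1854 = true := allTr_mk ok_1831 o_1809_1831 o_1832_1854

theorem o_1902_1947 : allTr oF to_1902_1947 = true := allTr_mk ok_1924 o_1902_1924 o_1925_1947

theorem o_1995_2040 : allTr oF to_1995_2040 = true := allTr_mk ok_2017 o_1995_2017 o_2018_2040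

theorem o_2088_2133 : allTr oF to_2088_2133 = true := allTr_mk ok_2110 o_2088_2110 o_2111_2133

theorem o_2134_2179 : allTr oF to_2134_2179 = true := allTr_mk ok_2156 o_2134_2156 o_2157_2179

theorem o_2180_2225 : allTr oF to_2180_2225 = true := allTr_mk ok_2202 o_2180_2202 o_2203_2225

theorem o_2273_2318 : allTr oF to_2273_2318 = true := allTr_mk ok_2295 o_2273_2295 o_2296_2318

theorem o_2366_2411 : allTr oF to_2366_2411 = true := allTr_mk ok_2388 o_2366_2388 o_2389_2411

theorem o_2459_2504 : allTr oF to_2459_2504 = true := allTr_mk ok_2481 o_2459_2481 o_2482_2504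

theorem o_2505_2550 : allTr oF to_2505_2550 = true := allTr_mk ok_2527 o_2505_2527 o_2528_2550

theorem o_2551_2596 : allTr oF to_2551_2596 = true := allTr_mk ok_2573 o_2551_2573 o_2574_2596

theorem o_2644_2689 : allTr oF to_2644_2689 = true := allTr_mk ok_2666 o_2644_2666 o_2667_2689

theorem o_2737_2782 : allTr oF to_2737_2782 = true := allTr_mk ok_2759 o_2737_2759 o_2760_2782

theorem o_2830_2875 : allTr oF to_2830_2875 = true := allTr_mk ok_2852 o_2830_2852 o_2853_2875

theorem o_2876_2921 : allTr oF to_2876_2921 = true := allTr_mk ok_2898 o_2876_2898 o_2899_2921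

theorem o_2922_2967 : allTr oF to_2922_2967 = true := allTr_mk ok_2944 o_2922_2944 o_2945_2967

theorem o_0_46 : allTr oF to_0_46 = true := allTr_mk ok_23 o_0_23 o_24_46

theorem o_186_232 : allTr oF to_186_232 = true := allTr_mk ok_209 o_186_209 o_210_232

theorem o_464_510 : allTr oF to_464_510 = true := allTr_mk ok_487 o_464_487 o_488_510

theorem o_557_603 : allTr oF to_557_603 = true := allTr_mk ok_580 o_557_580 o_581_603

theorem o_835_881 : allTr oF to_835_881 = true := allTr_mk ok_858 o_835_858 o_859_881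

theorem o_928_974 : allTr oF to_928_974 = true := allTr_mk ok_951 o_928_951 o_952_974

theorem o_1113_1159 : allTr oF to_1113_1159 = true := allTr_mk ok_1136 o_1113_1136 o_1137_1159

theorem o_1206_1252 : allTr oF to_1206_1252 = true := allTr_mk ok_1229 o_1206_1229 o_1230_1252

theorem o_1299_1345 : allTr oF to_1299_1345 = true := allTr_mk ok_1322 o_1299_1322 o_1323_1345

theorem o_1484_1530 : allTr oF to_1484_1530 = true := allTr_mk ok_1507 o_1484_1507 o_1508_1530

theorem o_1577_1623 : allTr oF to_1577_1623 = true := allTr_mk ok_1600 o_1577_1600 o_1601_1623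

theorem o_1670_1716 : allTr oF to_1670_1716 = true := allTr_mk ok_1693 o_1670_1693 o_1694_1716

theorem o_1855_1901 : allTr oF to_1855_1901 = true := allTr_mk ok_1878 o_1855_1878 o_1879_1901

theorem o_1948_1994 : allTr oF to_1948_1994 = true := allTr_mk ok_1971 o_1948_1971 o_1972_1994

theorem o_2041_2087 : allTr oF to_2041_2087 = true := allTr_mk ok_2064 o_2041_2064 o_2065_2087

theorem o_2226_2272 : allTr oF to_2226_2272 = true := allTr_mk ok_2249 o_2226_2249 o_2250_2272

theorem o_2319_2365 : allTr oF to_2319_2365 = true := allTr_mk ok_2342 o_2319_2342 o_2343_2365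

theorem o_2412_2458 : allTr oF to_2412_2458 = true := allTr_mk ok_2435 o_2412_2435 o_2436_2458

theorem o_2597_2643 : allTr oF to_2597_2643 = true := allTr_mk ok_2620 o_2597_2620 o_2621_2643

theorem o_2690_2736 : allTr oF to_2690_2736 = true := allTr_mk ok_2713 o_2690_2713 o_2714_2736

theorem o_2783_2829 : allTr oF to_2783_2829 = true := allTr_mk ok_2806 o_2783_2806 o_2807_2829

theorem o_279_370 : allTr oF to_279_370 = true := allTr_mk ok_324 o_279_324 o_325_370

theorem o_650_741 : allTr oF to_650_741 = true := allTr_mk ok_695 o_650_695 o_696_741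

theorem o_1021_1112 : allTr oF to_1021_1112 = true := allTr_mk ok_1066 o_1021_1066 o_1067_1112

theorem o_1392_1483 : allTr oF to_1392_1483 = true := allTr_mk ok_1437 o_1392_1437 o_1438_1483

theorem o_1763_1854 : allTr oF to_1763_1854 = true := allTr_mk ok_1808 o_1763_1808 o_1809_1854

theorem o_2134_2225 : allTr oF to_2134_2225 = true := allTr_mk ok_2179 o_2134_2179 o_2180_2225

theorem o_2505_2596 : allTr oF to_2505_2596 = true := allTr_mk ok_2550 o_2505_2550 o_2551_2596

theorem o_2876_2967 : allTr oF to_2876_2967 = true := allTr_mk ok_2921 o_2876_2921 o_2922_2967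

theorem o_0_92 : allTr oF to_0_92 = true := allTr_mk ok_46 o_0_46 o_47_92

theorem o_93_185 : allTr oF to_93_185 = true := allTr_mk ok_139 o_93_139 o_140_185

theorem o_186_278 : allTr oF to_186_278 = true := allTr_mk ok_232 o_186_232 o_233_278

theorem o_371_463 : allTr oF to_371_463 = true := allTr_mk ok_417 o_371_417 o_418_463

theorem o_464_556 : allTr oF to_464_556 = true := allTr_mk ok_510 o_464_510 o_511_556

theorem o_557_649 : allTr oF to_557_649 = true := allTr_mk ok_603 o_557_603 o_604_649

theorem o_742_834 : allTr oF to_742_834 = true := allTr_mk ok_788 o_742_788 o_789_834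

theorem o_835_927 : allTr oF to_835_927 = true := allTr_mk ok_881 o_835_881 o_882_927

theorem o_928_1020 : allTr oF to_928_1020 = true := allTr_mk ok_974 o_928_974 o_975_1020

theorem o_1113_1205 : allTr oF to_1113_1205 = true := allTr_mk ok_1159 o_1113_1159 o_1160_1205

theorem o_1206_1298 : allTr oF to_1206_1298 = true := allTr_mk ok_1252 o_1206_1252 o_1253_1298

theorem o_1299_1391 : allTr oF to_1299_1391 = true := allTr_mk ok_1345 o_1299_1345 o_1346_1391

theorem o_1484_1576 : allTr oF to_1484_1576 = true := allTr_mk ok_1530 o_1484_1530 o_1531_1576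

theorem o_1577_1669 : allTr oF to_1577_1669 = true := allTr_mk ok_1623 o_1577_1623 o_1624_1669

theorem o_1670_1762 : allTr oF to_1670_1762 = true := allTr_mk ok_1716 o_1670_1716 o_1717_1762

theorem o_1855_1947 : allTr oF to_1855_1947 = true := allTr_mk ok_1901 o_1855_1901 o_1902_1947

theorem o_1948_2040 : allTr oF to_1948_2040 = true := allTr_mk ok_1994 o_1948_1994 o_1995_2040

theorem o_2041_2133 : allTr oF to_2041_2133 = true := allTr_mk ok_2087 o_2041_2087 o_2088_2133

theorem o_2226_2318 : allTr oF to_2226_2318 = true := allTr_mk ok_2272 o_2226_2272 o_2273_2318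

theorem o_2319_2411 : allTr oF to_2319_2411 = true := allTr_mk ok_2365 o_2319_2365 o_2366_2411

theorem o_2412_2504 : allTr oF to_2412_2504 = true := allTr_mk ok_2458 o_2412_2458 o_2459_2504

theorem o_2597_2689 : allTr oF to_2597_2689 = true := allTr_mk ok_2643 o_2597_2643 o_2644_2689

theorem o_2690_2782 : allTr oF to_2690_2782 = true := allTr_mk ok_2736 o_2690_2736 o_2737_2782

theorem o_2783_2875 : allTr oF to_2783_2875 = true := allTr_mk ok_2829 o_2783_2829 o_2830_2875

theorem o_186_370 : allTr oF to_186_370 = true := allTr_mk ok_278 o_186_278 o_279_370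

theorem o_557_741 : allTr oF to_557_741 = true := allTr_mk ok_649 o_557_649 o_650_741

theorem o_928_1112 : allTr oF to_928_1112 = true := allTr_mk ok_1020 o_928_1020 o_1021_1112

theorem o_1299_1483 : allTr oF to_1299_1483 = true := allTr_mk ok_1391 o_1299_1391 o_1392_1483

theorem o_1670_1854 : allTr oF to_1670_1854 = true := allTr_mk ok_1762 o_1670_1762 o_1763_1854

theorem o_2041_2225 : allTr oF to_2041_2225 = true := allTr_mk ok_2133 o_2041_2133 o_2134_2225

theorem o_2412_2596 : allTr oF to_2412_2596 = true := allTr_mk ok_2504 o_2412_2504 o_2505_2596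

theorem o_2783_2967 : allTr oF to_2783_2967 = true := allTr_mk ok_2875 o_2783_2875 o_2876_2967

theorem o_0_185 : allTr oF to_0_185 = true := allTr_mk ok_92 o_0_92 o_93_185

theorem o_371_556 : allTr oF to_371_556 = true := allTr_mk ok_463 o_371_463 o_464_556

theorem o_742_927 : allTr oF to_742_927 = true := allTr_mk ok_834 o_742_834 o_835_927

theorem o_1113_1298 : allTr oF to_1113_1298 = true := allTr_mk ok_1205 o_1113_1205 o_1206_1298

theorem o_1484_1669 : allTr oF to_1484_1669 = true := allTr_mk ok_1576 o_1484_1576 o_1577_1669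

theorem o_1855_2040 : allTr oF to_1855_2040 = true := allTr_mk ok_1947 o_1855_1947 o_1948_2040

theorem o_2226_2411 : allTr oF to_2226_2411 = true := allTr_mk ok_2318 o_2226_2318 o_2319_2411

theorem o_2597_2782 : allTr oF to_2597_2782 = true := allTr_mk ok_2689 o_2597_2689 o_2690_2782

theorem o_0_370 : allTr oF to_0_370 = true := allTr_mk ok_185 o_0_185 o_186_370

theorem o_371_741 : allTr oF to_371_741 = true := allTr_mk ok_556 o_371_556 o_557_741

theorem o_742_1112 : allTr oF to_742_1112 = true := allTr_mk ok_927 o_742_927 o_928_1112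

theorem o_1113_1483 : allTr oF to_1113_1483 = true := allTr_mk ok_1298 o_1113_1298 o_1299_1483

theorem o_1484_1854 : allTr oF to_1484_1854 = true := allTr_mk ok_1669 o_1484_1669 o_1670_1854

theorem o_1855_2225 : allTr oF to_1855_2225 = true := allTr_mk ok_2040 o_1855_2040 o_2041_2225

theorem o_2226_2596 : allTr oF to_2226_2596 = true := allTr_mk ok_2411 o_2226_2411 o_2412_2596

theorem o_2597_2967 : allTr oF to_2597_2967 = true := allTr_mk ok_2782 o_2597_2782 o_2783_2967

theorem o_0_741 : allTr oF to_0_741 = true := allTr_mk ok_370 o_0_370 o_371_741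

theorem o_742_1483 : allTr oF to_742_1483 = true := allTr_mk ok_1112 o_742_1112 o_1113_1483

theorem o_1484_2225 : allTr oF to_1484_2225 = true := allTr_mk ok_1854 o_1484_1854 o_1855_2225

theorem o_2226_2967 : allTr oF to_2226_2967 = true := allTr_mk ok_2596 o_2226_2596 o_2597_2967

theorem o_0_1483 : allTr oF to_0_1483 = true := allTr_mk ok_741 o_0_741 o_742_1483

theorem o_1484_2967 : allTr oF to_1484_2967 = true := allTr_mk ok_2225 o_1484_2225 o_2226_2967

theorem o_0_2967 : allTr oF to_0_2967 = true := allTr_mk ok_1483 o_0_1483 o_1484_2967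

/-- the sequence of types -/
noncomputable def y : ℕ → ℕ := gs T.M T.mul T.w

theorem y_isG : IsG T.γ T.M T.mul T.w y := gs_isG gp (by decide +kernel) t_w (by decide +kernel)

theorem hlk : ∀ ia ib ic ie t, lk ia ib ic ie t = true → chkV P V lk t = true :=
  fun _ _ _ _ _ h => lk2_mem c_0_2131 h

theorem hout : ∀ ia ib ic ie t, ia < P.M → ib < P.M → ic < P.M → ie < P.M →
    lk ia ib ic ie t = true → chkOV P VO Q t ia ib ic ie = true :=
  fun _ _ _ _ _ _ _ _ _ h => lk2_out o_0_2967 h

theorem zero : ∃ t, chkV P V lk t = true ∧ Match P.n P.A P.B 16384 T.mul T.inv y T.vc t 0 0 0 0 := by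
  refine ⟨0x100010001000600010000000000004000400040004000, memTr_spec c_0_2131 (by decide +kernel), ?_⟩
  apply match_zero gp y_isG.lt <;> decide +kernel

/-- `𝒜(s,4)` holds for all `s` above the threshold -/
theorem avoid (s : ℝ) (hs1 : 1 < s) (hs2 : (5 : ℝ) < (s - 1) * (1 + 5)) : Avoid s 4 := by
  have h := avoid_mainVP chyp vok y_isG cert hlk hout zero act le_rfl vok' ohyp ocert s hs1
    (by
      have e1 : ((P.B : ℕ) : ℝ) = 5 := by norm_num [P]
      have e2 : ((P.A : ℕ) : ℝ) = 1 := by norm_num [P]
      rw [e1, e2]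
      exact hs2)
  exact h

end MPbbea99G.E4
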