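import Pool.Agent.Lib.Pbbea99G.E4.Data

/-!
# MP_bbea99_co: the tables
-/

namespace MPbbea99G.E4

open MPbbea99S MPbbea99T MPbbea99G Finset

theorem tg10 : ∀ j, j < 3 → nthL P.gT (T.γ * 1 + (0 + j)) = T.gTf P.WL 1 (0 + j) := by
  decide +kernel

theorem ts10 : ∀ j, j < 3 → nthL P.sT (T.γ * 1 + (0 + j)) = T.sTf P.WS 1 (0 + j) := by
  decide +kernel

theorem tx10 : ∀ j, j < 3 → chkX T P 1 (0 + j) = true := by decide +kernel

end MPbbea99G.E4
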