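import Pool.Agent.Lib.Pbbea99G.E4.Data

/-!
# MP_bbea99_co: windows over the templates
-/

namespace MPbbea99G.E4

open MPbbea99S MPbbea99T MPbbea99G Finset

theorem o_1265_1270 : allTr oF to_1265_1270 = true := by decide +kernel

theorem o_2007_2017 : allTr oF to_2007_2017 = true := by decide +kernel

theorem o_2226_2237 : allTr oF to_2226_2237 = true := by decide +kernel

theorem o_2621_2623 : allTr oF to_2621_2623 = true := by decide +kernel

theorem o_2769_2771 : allTr oF to_2769_2771 = true := by decide +kernel

theorem o_2876_2878 : allTr oF to_2876_2878 = true := by decide +kernel

theorem o_1844_1846 : allTr oF to_1844_1846 = true := by decide +kernel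

theorem o_2384_2388 : allTr oF to_2384_2388 = true := by decide +kernel

theorem o_2735_2736 : allTr oF to_2735_2736 = true := by decide +kernel

theorem ok_2736 : oF 0x1000000050001000500020002400040003fff400128272726 = true := by decide +kernel

theorem ok_2727 : oF 0x1000000050001000500020002400040003fff400108070706 = true := by decide +kernel

theorem o_2612_2613 : allTr oF to_2612_2613 = true := by decide +kernel

theorem o_2667_2668 : allTr oF to_2667_2668 = true := by decide +kernel

theorem o_2574_2575 : allTr oF to_2574_2575 = true := by decide +kernel

theorem ok_2889 : oF 0x100010000000500020001000100013fff4000400040010f0f0f0e = true := by decide +kernel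

theorem ok_2796 : oF 0x100000000000a00020003000300013fff4000400040011a1a1918 = true := by decide +kernel

theorem o_1670_1671 : allTr oF to_1670_1671 = true := by decide +kernel

theorem o_1326_1327 : allTr oF to_1326_1327 = true := by decide +kernel

theorem o_2566_2567 : allTr oF to_2566_2567 = true := by decide +kernel

theorem o_1682_1684 : allTr oF to_1682_1684 = true := by decide +kernel

theorem ok_2280 : oF 0x1000000010001000000050005400040003ffe40022823231e = true := by decide +kernel

theorem o_1656_1658 : allTr oF to_1656_1658 = true := by decide +kernel

theorem ok_2681 : oF 0x10000000500000007000100013fff400140013fff2a282827 = true := by decide +kernel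

theorem ok_1687 : oF 0xa00010009000500023fff40013fff40010e0d0c0b = true := by decide +kernel

theorem o_742_788 : allTr oF to_742_788 = true := by decide +kernel

theorem ok_2318 : oF 0x1000000010002000800030003400140013ffe40001d191914 = true := by decide +kernel

theorem o_233_278 : allTr oF to_233_278 = true := by decide +kernel

theorem ok_2519 : oF 0x100000004000000020004000440013ffe40004001221f1f1d = true := by decide +kernel

theorem o_2314_2318 : allTr oF to_2314_2318 = true := by decide +kernel

theorem o_1236_1241 : allTr oF to_1236_1241 = true := by decide +kernel

theorem o_1607_1609 : allTr oF to_1607_1609 = true := by decide +kernel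

theorem o_2781_2782 : allTr oF to_2781_2782 = true := by decide +kernel

theorem ok_2748 : oF 0x10001000600000001000000004001400040003fff01000000 = true := by decide +kernel

theorem ok_2864 : oF 0x100000001000b000100020002000040004000400040000c0c0b0b = true := by decide +kernel

theorem o_1830_1831 : allTr oF to_1830_1831 = true := by decide +kernel

theorem ok_2870 : oF 0x100000001000b0001000200020000400040004000400017171616 = true := by decide +kernel

theorem ok_846 : oF 0x200020000000500053fff40033ffd400111160f13 = true := by decide +kernel

theorem o_2256_2261 : allTr oF to_2256_2261 = true := by decide +kernel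

theorem o_1529_1530 : allTr oF to_1529_1530 = true := by decide +kernel

theorem o_2152_2156 : allTr oF to_2152_2156 = true := by decide +kernel

theorem o_1108_1112 : allTr oF to_1108_1112 = true := by decide +kernel

theorem ok_2499 : oF 0x10000000300020007000900093ffd3fff4001400300292926 = true := by decide +kernel

theorem ok_1322 : oF 0x8000200000002000040013ffe3ffe400312100f0c = true := by decide +kernel

theorem ok_1901 : oF 0x10000000000000003000100014000400140023ffd12131315 = true := by decide +kernel

theorem ok_2545 : oF 0x10000000400000006000600063fff3ffd4002400226232321 = true := by decide +kernel

theorem ok_1194 : oF 0x700010009000300013ffe40033fff400029252420 = true := by decide +kernel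

theorem ok_1936 : oF 0x10000000000000006000700073ffb40054000400013131314 = true := by decide +kernel

theorem ok_2383 : oF 0x100000002000200010002000240013ffe40023fff1e1b1b17 = true := by decide +kernel

theorem ok_951 : oF 0x4000200030000000040043fff40003ffd0f160f15 = true := by decide +kernel

theorem ok_1211 : oF 0x700020003000500033ffd3fff400040042018160d = true := by decide +kernel

theorem ok_1983 : oF 0x100000000000100000004000440023ffc400240000a040429 = true := by decide +kernel

theorem ok_2400 : oF 0x10000000200020007000700073ffb3fff400340030603032a = true := by decide +kernel

end MPbbea99G.E4
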